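import Mathlib

/-!
The abc inequality in several variables: determinants.
-/

namespace Pool.Agent.Lib.MP_17a322_nt.AB

open Matrix

/-- The determinant of a matrix of combinations of rows. -/
theorem det_comb {F ι σ : Type*} [CommRing F] [Fintype ι] [DecidableEq ι] [Fintype σ]
    (R : ι → σ → F) (Z : σ → ι → F) :
    (Matrix.of fun m j => ∑ z, R m z * Z z j).det =
      ∑ s : ι → σ, (∏ m, R m (s m)) * (Matrix.of fun m j => Z (s m) j).det := by
  classical
  have h1 : (Matrix.of fun m j => ∑ z, R m z * Z z j).det =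
      Matrix.detRowAlternating fun m => ∑ z, R m z • Z z := by
    congr 1
    funext m j
    simp
  rw [h1]
  have h2 := (Matrix.detRowAlternating (n := ι) (R := F)).toMultilinearMap.map_sum
    (fun m z => R m z • Z z)
  refine h2.trans (Finset.sum_congr rfl fun s _ => ?_)
  have h3 := (Matrix.detRowAlternating (n := ι) (R := F)).toMultilinearMap.map_smul_univ
    (fun m => R m (s m)) (fun m => Z (s m))
  refine h3.trans ?_
  rw [smul_eq_mul]
  rfl

/-- A row of a matrix with nonzero determinant is replaced. -/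
theorem det_update {F ι : Type*} [Field F] [Fintype ι] [DecidableEq ι] (R : Matrix ι ι F)
    (hR : R.det ≠ 0) (ρ : ι) (y : ι → F) (hy : R *ᵥ y = Pi.single ρ 1) (x : ι → F) :
    (R.updateRow ρ x).det = (x ⬝ᵥ y) * R.det := by
  have hu : IsUnit R.det := isUnit_iff_ne_zero.mpr hR
  set c : ι → F := x ᵥ* R⁻¹ with hc
  have hx : x = ∑ k, c k • R k := by
    have h1 : c ᵥ* R = x := by
      rw [hc, Matrix.vecMul_vecMul, Matrix.nonsing_inv_mul R hu, Matrix.vecMul_one]
    rw [← h1]
    funext j
    simp [Matrix.vecMul, dotProduct, Finset.sum_apply]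
  have hxy : x ⬝ᵥ y = c ρ := by
    have h1 : c ᵥ* R = x := by
      rw [hc, Matrix.vecMul_vecMul, Matrix.nonsing_inv_mul R hu, Matrix.vecMul_one]
    rw [← h1, ← Matrix.dotProduct_mulVec, hy]
    simp
  have h2 := Matrix.det_updateRow_sum R ρ c
  rw [← hx] at h2
  rw [h2, hxy, smul_eq_mul]

/-- Adding the same row to all rows of a matrix. -/
theorem det_add_row {F ι : Type*} [Field F] [Fintype ι] [DecidableEq ι] (A : Matrix ι ι F)
    (w c : ι → F) {d : F} (hd : d ≠ 0) (hA : ∀ i, ∑ j, A i j * w j = d) :
    (Matrix.of fun i j => A i j + c j).det = (1 + (∑ j, c j * w j) / d) * A.det := by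
  have h1 : (Matrix.of fun i j => A i j + c j) =
      A * (1 + Matrix.replicateCol Unit (fun i => w i / d) * Matrix.replicateRow Unit c) := by
    ext i j
    rw [Matrix.mul_add, Matrix.mul_one, Matrix.add_apply, ← Matrix.mul_assoc, Matrix.of_apply,
      Matrix.mul_apply]
    congr 1
    simp only [Finset.univ_unique, Finset.sum_singleton, Matrix.replicateRow_apply, Matrix.mul_apply,
      Matrix.replicateCol_apply]
    have h2 : ∑ j, A i j * (w j / d) = 1 := by
      have h3 : ∑ j, A i j * (w j / d) = (∑ j, A i j * w j) / d := by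
        rw [Finset.sum_div]
        exact Finset.sum_congr rfl fun j _ => by ring
      rw [h3, hA i, div_self hd]
    rw [h2, one_mul]
  rw [h1, Matrix.det_mul, Matrix.det_one_add_replicateCol_mul_replicateRow, mul_comm]
  congr 2
  rw [dotProduct, Finset.sum_div]
  exact Finset.sum_congr rfl fun j _ => by ring

end Pool.Agent.Lib.MP_17a322_nt.AB
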