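import Pool.Agent.Lib.MP_17a322_nt.AB.A1

/-!
The abc inequality in several variables: the logarithmic Jacobian matrix.
-/

namespace Pool.Agent.Lib.MP_17a322_nt.AB

open Matrix

section

variable {F : Type*} [Field F] {ι α τ : Type*} [Fintype ι] [DecidableEq ι] [Fintype α]
  [DecidableEq α] [Fintype τ] [DecidableEq τ]

/-- The value of the universal combination. -/
def Fi (μ : τ × α → F) (φ : α → F) (i : τ) : F := ∑ a, μ (i, a) * φ a

/-- The logarithmic differentials of the forms `w_0 F_i` and `F_1 μ_{ia}`. -/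
def ell (i1 : τ) (j0 : ι) (w0 : F) (μ : τ × α → F) (φ : α → F) (δ : α → ι → F) :
    τ ⊕ (τ × α) → ι ⊕ (τ × α) → F :=
  Sum.elim
    (fun i => Sum.elim
      (fun j => (if j = j0 then w0⁻¹ else 0) + (∑ a, μ (i, a) * δ a j) / Fi μ φ i)
      (fun z => if z.1 = i then φ z.2 / Fi μ φ i else 0))
    (fun y => Sum.elim
      (fun j => (∑ a, μ (i1, a) * δ a j) / Fi μ φ i1)
      (fun z => (if z.1 = i1 then φ z.2 / Fi μ φ i1 else 0) + (if z = y then (μ y)⁻¹ else 0)))

/-- The matrix of integral combinations of the logarithmic differentials. -/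
def R0 (i1 : τ) (j0 : ι) (w0 : F) (μ : τ × α → F) (φ : α → F) (δ : α → ι → F) (I : ι → τ) :
    Matrix (ι ⊕ (τ × α)) (ι ⊕ (τ × α)) F :=
  Matrix.of (Sum.elim (fun j => ell i1 j0 w0 μ φ δ (Sum.inl (I j)))
    (fun y => ell i1 j0 w0 μ φ δ (Sum.inr y) - ell i1 j0 w0 μ φ δ (Sum.inl i1)))

omit [Fintype ι] [Fintype τ] in
theorem R0_inr (i1 : τ) (j0 : ι) (w0 : F) (μ : τ × α → F) (φ : α → F) (δ : α → ι → F) (I : ι → τ)
    (y : τ × α) (x : ι ⊕ (τ × α)) : R0 i1 j0 w0 μ φ δ I (Sum.inr y) x =
      Sum.elim (fun j => -(if j = j0 then w0⁻¹ else 0)) (fun z => if z = y then (μ y)⁻¹ else 0) x := by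
  rcases x with j | z
  · simp [R0, ell]
  · simp [R0, ell]

theorem det_R0 (i1 : τ) (j0 : ι) (w : ι → F) (μ : τ × α → F) (φ : α → F) (δ : α → ι → F)
    (I : ι → τ) {d : F} (hw : w j0 ≠ 0) (hμ : ∀ y, μ y ≠ 0) (hF : ∀ i, Fi μ φ i ≠ 0) (hd : d ≠ 0)
    (hE : ∀ a, ∑ j, δ a j * w j = d * φ a) :
    (R0 i1 j0 (w j0) μ φ δ I).det = (∏ y, (μ y)⁻¹) * ((1 + 2 / d) *
      (Matrix.of fun j j' => (∑ a, μ (I j, a) * δ a j') / Fi μ φ (I j)).det) := by
  set A : Matrix ι ι F := Matrix.of fun j j' => (∑ a, μ (I j, a) * δ a j') / Fi μ φ (I j) with hA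
  set e : ι → F := fun j => if j = j0 then (w j0)⁻¹ else 0 with he
  let B : Matrix ι (τ × α) F := Matrix.of fun j z => if z.1 = I j then φ z.2 / Fi μ φ (I j) else 0
  let C : Matrix (τ × α) ι F := Matrix.of fun _ j => -e j
  let D : Matrix (τ × α) (τ × α) F := Matrix.diagonal fun y => (μ y)⁻¹
  have hblock : R0 i1 j0 (w j0) μ φ δ I =
      Matrix.fromBlocks (Matrix.of fun j j' => A j j' + e j') B C D := by
    ext x x'
    rcases x with j | y
    · rcases x' with j' | z
      · simp [R0, ell, A, e, add_comm]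
      · simp [R0, ell, B]
    · rw [R0_inr]
      rcases x' with j' | z
      · simp [C, e]
      · simp [D, Matrix.diagonal_apply, eq_comm]
  let Di : Matrix (τ × α) (τ × α) F := Matrix.diagonal μ
  have hDi : D * Di = 1 := by
    simp only [D, Di, Matrix.diagonal_mul_diagonal]
    rw [← Matrix.diagonal_one]
    congr 1
    funext y
    exact inv_mul_cancel₀ (hμ y)
  have hDi' : Di * D = 1 := by
    simp only [D, Di, Matrix.diagonal_mul_diagonal]
    rw [← Matrix.diagonal_one]
    congr 1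
    funext y
    exact mul_inv_cancel₀ (hμ y)
  let invD : Invertible D := ⟨Di, hDi', hDi⟩
  rw [hblock, Matrix.det_fromBlocks₂₂]
  have hdetD : D.det = ∏ y, (μ y)⁻¹ := Matrix.det_diagonal
  rw [hdetD]
  congr 1
  have hinv : (⅟D : Matrix (τ × α) (τ × α) F) = Di := rfl
  have hS : (Matrix.of fun j j' => A j j' + e j') - B * ⅟D * C =
      Matrix.of fun j j' => A j j' + 2 * e j' := by
    ext j j'
    rw [hinv, Matrix.sub_apply, Matrix.mul_apply, Matrix.of_apply, Matrix.of_apply]
    have h1 : ∀ z, (B * Di) j z = if z.1 = I j then μ z * φ z.2 / Fi μ φ (I j) else 0 := by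
      intro z
      rw [Matrix.mul_diagonal]
      simp only [B, Matrix.of_apply]
      split_ifs
      · ring
      · ring
    simp only [h1, C, Matrix.of_apply]
    have h2 : ∑ z : τ × α, (if z.1 = I j then μ z * φ z.2 / Fi μ φ (I j) else 0) * -e j' =
        -e j' := by
      rw [← Finset.sum_mul]
      have h3 : ∑ z : τ × α, (if z.1 = I j then μ z * φ z.2 / Fi μ φ (I j) else 0) = 1 := by
        rw [Fintype.sum_prod_type]
        have h4 : ∀ i : τ, ∑ a : α, (if (i, a).1 = I j then μ (i, a) * φ (i, a).2 / Fi μ φ (I j)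
            else 0) = if i = I j then (∑ a, μ (I j, a) * φ a) / Fi μ φ (I j) else 0 := by
          intro i
          by_cases hi : i = I j
          · subst hi
            simp [Finset.sum_div]
          · simp [hi]
        rw [Finset.sum_congr rfl fun i _ => h4 i, Finset.sum_ite_eq' Finset.univ (I j)]
        simp only [Finset.mem_univ, if_true]
        exact div_self (hF (I j))
      rw [h3, one_mul]
    rw [h2]
    ring
  rw [hS]
  have h5 := det_add_row A w (fun j => 2 * e j) hd (fun i => by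
    have h6 : ∑ j, A i j * w j = (∑ a, μ (I i, a) * (d * φ a)) / Fi μ φ (I i) := by
      simp only [hA, Matrix.of_apply]
      have h7 : ∀ j, (∑ a, μ (I i, a) * δ a j) / Fi μ φ (I i) * w j =
          (∑ a, μ (I i, a) * (δ a j * w j)) / Fi μ φ (I i) := by
        intro j
        rw [div_mul_eq_mul_div, Finset.sum_mul]
        congr 1
        exact Finset.sum_congr rfl fun a _ => by ring
      rw [Finset.sum_congr rfl fun j _ => h7 j, ← Finset.sum_div, Finset.sum_comm]
      congr 1
      refine Finset.sum_congr rfl fun a _ => ?_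
      rw [← Finset.mul_sum, hE a]
    rw [h6]
    have h8 : ∑ a, μ (I i, a) * (d * φ a) = d * Fi μ φ (I i) := by
      rw [Fi, Finset.mul_sum]
      exact Finset.sum_congr rfl fun a _ => by ring
    rw [h8, mul_div_assoc, div_self (hF (I i)), mul_one])
  rw [h5]
  congr 2
  have h9 : ∑ j, 2 * e j * w j = 2 := by
    simp only [he]
    rw [Finset.sum_eq_single j0]
    · simp [hw]
    · intro j _ hj
      simp [hj]
    · simp
  rw [h9]

/-- The determinant after a row is replaced by the logarithmic differential of a small form. -/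
theorem det_R1 (i1 : τ) (j0 : ι) (w0 : F) (μ : τ × α → F) (φ : α → F) (δ : α → ι → F)
    (I : ι → τ) (hμ : ∀ y, μ y ≠ 0) (i : τ) (c : α) (hI : ∀ j, I j ≠ i)
    (hR : (R0 i1 j0 w0 μ φ δ I).det ≠ 0) :
    ((R0 i1 j0 w0 μ φ δ I).updateRow (Sum.inr (i, c)) (ell i1 j0 w0 μ φ δ (Sum.inl i))).det =
      (μ (i, c) * φ c / Fi μ φ i) * (R0 i1 j0 w0 μ φ δ I).det := by
  have hy : R0 i1 j0 w0 μ φ δ I *ᵥ (Pi.single (Sum.inr (i, c)) (μ (i, c))) =
      Pi.single (Sum.inr (i, c)) 1 := by
    funext x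
    rw [Matrix.mulVec_single]
    rcases x with j | y
    · have h1 : (i, c).1 ≠ I j := fun h => hI j h.symm
      simp [R0, ell, h1, Matrix.col_apply]
    · simp only [Pi.smul_apply, Matrix.col_apply, R0_inr, Sum.elim_inr, MulOpposite.smul_eq_mul_unop,
        MulOpposite.unop_op]
      by_cases h : y = (i, c)
      · subst h
        simp [hμ]
      · have h' : ¬((i, c) = y) := fun e => h e.symm
        have h'' : (Sum.inr y : ι ⊕ (τ × α)) ≠ Sum.inr (i, c) := fun e => h (Sum.inr.inj e)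
        simp [h', h'']
  rw [det_update _ hR _ _ hy]
  congr 1
  rw [dotProduct_single]
  simp [ell]
  ring

end

end Pool.Agent.Lib.MP_17a322_nt.AB
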