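import Pool.Agent.Lib.MP_17a322_nt.EQ.Int
import Pool.Agent.Lib.MP_17a322_nt.AB.A2

/-!
The abc inequality in several variables: the inequality at one place.
-/

set_option linter.unusedSectionVars false

universe u

namespace Pool.Agent.Lib.MP_17a322_nt.AB

open Matrix NumberField
open Pool.Agent.Lib.MP_17a322_nt.EQ

section

variable {K : Type u} [Field K] [NumberField K]

/-- The constant in the triangle inequality for `n` terms. -/
noncomputable def kp (v : Pl K) (n : ℕ) : ℝ :=
  match v with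
  | Sum.inl _ => n + 1
  | Sum.inr _ => 1

theorem one_le_kp (v : Pl K) (n : ℕ) : 1 ≤ kp v n := by
  rcases v with w | w
  · simp [kp]
  · simp [kp]

theorem kp_mono (v : Pl K) {m n : ℕ} (h : m ≤ n) : kp v m ≤ kp v n := by
  rcases v with w | w
  · simp only [kp]
    have : (m : ℝ) ≤ n := by exact_mod_cast h
    linarith
  · simp [kp]

theorem av_sum_le (v : Pl K) {β : Type*} (s : Finset β) (x : β → K) {m : ℝ} (hm : 0 ≤ m)
    (h : ∀ b ∈ s, av v (x b) ≤ m) : av v (∑ b ∈ s, x b) ≤ kp v s.card * m := by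
  classical
  rcases v with w | w
  · calc av (Sum.inl w) (∑ b ∈ s, x b) ≤ ∑ b ∈ s, av (Sum.inl w) (x b) :=
          (av (Sum.inl w)).sum_le _ _
      _ ≤ ∑ b ∈ s, m := Finset.sum_le_sum h
      _ = s.card * m := by rw [Finset.sum_const, nsmul_eq_mul]
      _ ≤ kp (Sum.inl w) s.card * m := by
          refine mul_le_mul_of_nonneg_right ?_ hm
          simp [kp]
  · simp only [kp, one_mul]
    induction s using Finset.induction_on with
    | empty => simpa using hm
    | insert a s ha ih =>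
      rw [Finset.sum_insert ha]
      refine (w.add_le _ _).trans (max_le ?_ ?_)
      · exact h a (Finset.mem_insert_self a s)
      · exact ih fun b hb => h b (Finset.mem_insert_of_mem hb)

/-- The determinant of combinations of rows. -/
theorem av_det_comb_le (v : Pl K) {ι σ : Type*} [Fintype ι] [DecidableEq ι] [Fintype σ]
    (R : ι → σ → K) (Z : σ → ι → K) {M V : ℝ} (hM : 0 ≤ M) (hV : 0 ≤ V)
    (hR : ∀ m z, av v (R m z) ≤ M)
    (hZ : ∀ s : ι → σ, av v (Matrix.of fun m j => Z (s m) j).det ≤ V) :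
    av v (Matrix.of fun m j => ∑ z, R m z * Z z j).det ≤
      kp v (Fintype.card (ι → σ)) * (M ^ Fintype.card ι * V) := by
  classical
  rw [det_comb]
  refine av_sum_le v _ _ (mul_nonneg (pow_nonneg hM _) hV) fun s _ => ?_
  rw [map_mul, map_prod]
  refine mul_le_mul ?_ (hZ s) ((av v).nonneg _) (pow_nonneg hM _)
  calc ∏ m, av v (R m (s m)) ≤ ∏ m : ι, M :=
        Finset.prod_le_prod (fun m _ => (av v).nonneg _) fun m _ => hR m (s m)
    _ = M ^ Fintype.card ι := by rw [Finset.prod_const, Finset.card_univ]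

theorem exists_iSup_eq {σ : Type*} [Finite σ] [Nonempty σ] (f : σ → ℝ) : ∃ s, f s = ⨆ t, f t :=
  exists_eq_ciSup_of_finite

/-- The inverse of a square part of the coefficient matrix expresses the values `φ a` by the values
of the universal combinations. -/
theorem solve {α τ : Type} [Fintype α] [DecidableEq α] (lam : τ × α → K) (c : K) (x : α → K)
    (T : α → τ) (hT : (Matrix.of fun b a => lam (T b, a)).det ≠ 0) (a : α) :
    c * x a = ∑ b, ((Matrix.of fun b a => lam (T b, a))⁻¹ : Matrix α α K) a b *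
      ∑ a', (lam (T b, a') * c) * x a' := by
  set Λ : Matrix α α K := Matrix.of fun b a => lam (T b, a) with hΛ
  have h1 : Λ *ᵥ (fun a => c * x a) = fun b => ∑ a', (lam (T b, a') * c) * x a' := by
    funext b
    simp only [Matrix.mulVec, dotProduct, hΛ, Matrix.of_apply]
    exact Finset.sum_congr rfl fun a' _ => by ring
  have h2 : Λ⁻¹ *ᵥ (Λ *ᵥ (fun a => c * x a)) = fun a => c * x a := by
    rw [Matrix.mulVec_mulVec, Matrix.nonsing_inv_mul Λ (isUnit_iff_ne_zero.mpr hT),
      Matrix.one_mulVec]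
  rw [h1] at h2
  have h3 := congrFun h2 a
  simp only [Matrix.mulVec, dotProduct] at h3
  exact h3.symm

/-- Many of the universal combinations are not small. -/
theorem exists_large (v : Pl K) {α τ : Type} [Fintype α] [DecidableEq α] [Fintype τ]
    [DecidableEq τ] (lam : τ × α → K) (c : K) {M : ℝ} (hM : 1 ≤ M)
    (hT : ∀ T : α → τ, Function.Injective T → (Matrix.of fun b a => lam (T b, a)).det ≠ 0 ∧
      ∀ a b, av v (((Matrix.of fun b a => lam (T b, a))⁻¹ : Matrix α α K) a b) ≤ M)
    (hcard : 2 * Fintype.card α ≤ Fintype.card τ) (φ : α → K) {P : ℝ}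
    (hP' : ∃ a, av v (φ a) = P) {κ : ℝ} (hκ1 : kp v (Fintype.card α) ≤ κ) :
    ∃ T : α → τ, Function.Injective T ∧
      ∀ b, av v c * P ≤ κ * M * av v (Fi (fun y => lam y * c) φ (T b)) := by
  classical
  have hκ : 1 ≤ κ := (one_le_kp v _).trans hκ1
  obtain ⟨a0, ha0⟩ := hP'
  have hne : Nonempty α := ⟨a0⟩
  -- the key inequality for an injective map
  have key : ∀ T : α → τ, Function.Injective T →
      ∃ b, av v c * P ≤ κ * M * av v (Fi (fun y => lam y * c) φ (T b)) := by
    intro T hTi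
    obtain ⟨hdet, hinv⟩ := hT T hTi
    obtain ⟨b, -, hb⟩ := Finset.exists_max_image (Finset.univ : Finset α)
      (fun b => av v (Fi (fun y => lam y * c) φ (T b))) Finset.univ_nonempty
    refine ⟨b, ?_⟩
    have h1 := solve lam c φ T hdet a0
    have h2 : av v (c * φ a0) ≤ kp v (Finset.univ : Finset α).card *
        (M * av v (Fi (fun y => lam y * c) φ (T b))) := by
      rw [h1]
      refine av_sum_le v _ _ (mul_nonneg (by linarith) ((av v).nonneg _)) fun b' hb' => ?_
      rw [map_mul]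
      exact mul_le_mul (hinv a0 b') (hb b' hb') ((av v).nonneg _) (by linarith)
    rw [map_mul, ha0] at h2
    calc av v c * P ≤ kp v (Finset.univ : Finset α).card *
        (M * av v (Fi (fun y => lam y * c) φ (T b))) := h2
      _ ≤ κ * (M * av v (Fi (fun y => lam y * c) φ (T b))) := by
        refine mul_le_mul_of_nonneg_right ?_ (mul_nonneg (by linarith) ((av v).nonneg _))
        rw [Finset.card_univ]
        exact hκ1
      _ = _ := by ring
  set B : Finset τ := Finset.univ.filter fun i =>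
    ¬(av v c * P ≤ κ * M * av v (Fi (fun y => lam y * c) φ i)) with hB
  have hmem : ∀ i, i ∈ B ↔ ¬(av v c * P ≤ κ * M * av v (Fi (fun y => lam y * c) φ i)) := by
    intro i
    rw [hB, Finset.mem_filter]
    exact ⟨fun h => h.2, fun h => ⟨Finset.mem_univ _, h⟩⟩
  have hBcard : B.card < Fintype.card α := by
    by_contra hcon
    push Not at hcon
    have h1 : Fintype.card α ≤ Fintype.card B := by
      rw [Fintype.card_coe]
      exact hcon
    obtain ⟨g⟩ := Function.Embedding.nonempty_of_card_le h1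
    obtain ⟨b, hb⟩ := key (fun a => (g a : τ)) fun a a' h => g.injective (Subtype.ext h)
    exact (hmem _).mp (g b).2 hb
  have h3 : Fintype.card α ≤ Fintype.card (Bᶜ : Finset τ) := by
    rw [Fintype.card_coe, Finset.card_compl]
    omega
  obtain ⟨g⟩ := Function.Embedding.nonempty_of_card_le h3
  refine ⟨fun a => (g a : τ), fun a a' h => g.injective (Subtype.ext h), fun b => ?_⟩
  exact not_not.mp fun h => (Finset.mem_compl.mp (g b).2) ((hmem _).mpr h)

/-- The minors of `δ` and the minors of the differentials of the universal combinations. -/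
theorem exists_minor (v : Pl K) {ι α τ : Type} [Fintype ι] [DecidableEq ι] [Fintype α]
    [DecidableEq α] (lam : τ × α → K) (c : K) {M : ℝ} (hM : 1 ≤ M) (T : α → τ)
    (hdet : (Matrix.of fun b a => lam (T b, a)).det ≠ 0)
    (hinv : ∀ a b, av v (((Matrix.of fun b a => lam (T b, a))⁻¹ : Matrix α α K) a b) ≤ M)
    (δ : α → ι → K) {κ : ℝ} (hκ2 : kp v (Fintype.card (ι → α)) ≤ κ) (A : ι → α) :
    ∃ S : ι → α, av v c ^ Fintype.card ι * av v (Matrix.of fun j j' => δ (A j) j').det ≤
      κ * (M ^ Fintype.card ι *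
        av v (Matrix.of fun j j' => ∑ a, (lam (T (S j), a) * c) * δ a j').det) := by
  classical
  obtain ⟨S, -, hS⟩ := Finset.exists_max_image (Finset.univ : Finset (ι → α))
    (fun S => av v (Matrix.of fun j j' => ∑ a, (lam (T (S j), a) * c) * δ a j').det)
    ⟨A, Finset.mem_univ _⟩
  refine ⟨S, ?_⟩
  have h1 : (Matrix.of fun j j' => c * δ (A j) j').det =
      (Matrix.of fun j j' => ∑ b, (((Matrix.of fun b a => lam (T b, a))⁻¹ : Matrix α α K) (A j) b) *
        ∑ a, (lam (T b, a) * c) * δ a j').det := by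
    congr 1
    ext j j'
    exact solve lam c (fun a => δ a j') T hdet (A j)
  have h2 : (Matrix.of fun j j' => c * δ (A j) j').det =
      c ^ Fintype.card ι * (Matrix.of fun j j' => δ (A j) j').det := by
    rw [← Matrix.det_smul]
    rfl
  have h3 := av_det_comb_le v
    (fun j b => ((Matrix.of fun b a => lam (T b, a))⁻¹ : Matrix α α K) (A j) b)
    (fun b j' => ∑ a, (lam (T b, a) * c) * δ a j') (M := M)
    (V := av v (Matrix.of fun j j' => ∑ a, (lam (T (S j), a) * c) * δ a j').det)
    (by linarith) ((av v).nonneg _) (fun j b => hinv (A j) b) (fun S' => hS S' (Finset.mem_univ _))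
  rw [← h1, h2, map_mul, map_pow] at h3
  refine h3.trans (mul_le_mul_of_nonneg_right hκ2 ?_)
  exact mul_nonneg (pow_nonneg (by linarith) _) ((av v).nonneg _)

/-- The inequality at one place. -/
theorem local_bound (v : Pl K) {ι α τ : Type} [Fintype ι] [DecidableEq ι] [Fintype α]
    [DecidableEq α] [Fintype τ] [DecidableEq τ] (i1 : τ) (j0 : ι) (lam : τ × α → K) {d : ℕ}
    (hd : d ≠ 0) {M : ℝ} (hM : 1 ≤ M) (hl : ∀ y, av v (lam y) ≤ M)
    (hl' : ∀ y, 1 ≤ M * av v (lam y))
    (hT : ∀ T : α → τ, Function.Injective T → (Matrix.of fun b a => lam (T b, a)).det ≠ 0 ∧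
      ∀ a b, av v (((Matrix.of fun b a => lam (T b, a))⁻¹ : Matrix α α K) a b) ≤ M)
    (h2 : 1 ≤ M * av v (1 + 2 / (d : K))) (hcard : 2 * Fintype.card α ≤ Fintype.card τ)
    (w : ι → K) (φ : α → K) (δ : α → ι → K) (hw : w j0 ≠ 0)
    (hE : ∀ a, ∑ j, δ a j * w j = d * φ a)
    (hF : ∀ i, Fi (fun y => lam y * w j0) φ i ≠ 0) {P V : ℝ} (hP : ∀ a, av v (φ a) ≤ P)
    (hP' : ∃ a, av v (φ a) = P)
    (hV : ∀ I : ι ⊕ (τ × α) → τ ⊕ (τ × α), av v (Matrix.of fun m j =>
      ell i1 j0 (w j0) (fun y => lam y * w j0) φ δ (I m) j).det ≤ V) {κ : ℝ}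
    (hκ1 : kp v (Fintype.card α) ≤ κ) (hκ2 : kp v (Fintype.card (ι → α)) ≤ κ)
    (hκ3 : kp v (Fintype.card (ι ⊕ (τ × α) → τ ⊕ (τ × α))) ≤ κ) (A : ι → α) (i : τ) :
    av v (Matrix.of fun j j' => δ (A j) j').det * (av v (w j0) * P) ≤
      (κ ^ (Fintype.card ι + 3) * M ^ (2 * Fintype.card ι + 2)) *
        (P ^ Fintype.card ι * (∏ y, av v (lam y * w j0)) * V) *
          av v (Fi (fun y => lam y * w j0) φ i) := by
  classical
  set μ : τ × α → K := fun y => lam y * w j0 with hμdef
  set n := Fintype.card ι with hn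
  have hκ : 1 ≤ κ := (one_le_kp v _).trans hκ1
  have hM0 : 0 ≤ M := by linarith
  have hκ0 : 0 ≤ κ := by linarith
  have hW : 0 < av v (w j0) := (av v).pos hw
  have hV0 : 0 ≤ V := ((av v).nonneg _).trans (hV fun _ => Sum.inl i1)
  have hlam : ∀ y, lam y ≠ 0 := by
    intro y h
    have := hl' y
    rw [h, map_zero, mul_zero] at this
    linarith
  have hμ : ∀ y, μ y ≠ 0 := fun y => mul_ne_zero (hlam y) hw
  obtain ⟨a0, ha0⟩ := hP'
  have hP0 : 0 < P := by
    have h1 : 0 ≤ P := ha0 ▸ (av v).nonneg _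
    rcases h1.eq_or_lt with h | h
    · exfalso
      apply hF i1
      rw [Fi]
      refine Finset.sum_eq_zero fun a _ => ?_
      have h2 : av v (φ a) = 0 := le_antisymm ((hP a).trans h.symm.le) ((av v).nonneg _)
      rw [(av v).eq_zero.mp h2, mul_zero]
    · exact h
  have hFle : ∀ i, av v (Fi μ φ i) ≤ κ * (M * av v (w j0) * P) := by
    intro i
    have h1 : av v (∑ a, μ (i, a) * φ a) ≤ kp v (Finset.univ : Finset α).card *
        (M * av v (w j0) * P) := by
      refine av_sum_le v _ _ (by positivity) fun a _ => ?_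
      rw [hμdef, map_mul, map_mul]
      exact mul_le_mul (mul_le_mul_of_nonneg_right (hl _) hW.le) (hP a) ((av v).nonneg _)
        (by positivity)
    refine (h1.trans ?_)
    rw [Finset.card_univ]
    exact mul_le_mul_of_nonneg_right hκ1 (by positivity)
  have hFpos : ∀ i, 0 < av v (Fi μ φ i) := fun i => (av v).pos (hF i)
  have hprod : 0 < ∏ y, av v (μ y) := Finset.prod_pos fun y _ => (av v).pos (hμ y)
  have hrhs : 0 ≤ (κ ^ (n + 3) * M ^ (2 * n + 2)) * (P ^ n * (∏ y, av v (μ y)) * V) *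
      av v (Fi μ φ i) := by positivity
  by_cases hdA : (Matrix.of fun j j' => δ (A j) j').det = 0
  · rw [hdA, map_zero, zero_mul]
    exact hrhs
  obtain ⟨T, hTi, hTl⟩ := exists_large v lam (w j0) hM hT hcard φ ⟨a0, ha0⟩ hκ1
  obtain ⟨hdet, hinv⟩ := hT T hTi
  obtain ⟨S, hS⟩ := exists_minor v lam (w j0) hM T hdet hinv δ hκ2 A
  set I : ι → τ := fun j => T (S j) with hI
  set dF : K := (Matrix.of fun j j' => ∑ a, μ (I j, a) * δ a j').det with hdF
  have hS' : av v (w j0) ^ n * av v (Matrix.of fun j j' => δ (A j) j').det ≤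
      κ * (M ^ n * av v dF) := hS
  set Dw : K := (Matrix.of fun j j' => (∑ a, μ (I j, a) * δ a j') / Fi μ φ (I j)).det with hDw
  have hDw' : Dw = (∏ j, (Fi μ φ (I j))⁻¹) * dF := by
    rw [hDw, hdF, ← Matrix.det_mul_column]
    congr 1
    ext j j'
    simp only [Matrix.of_apply]
    rw [div_eq_inv_mul]
  have hdF0 : dF ≠ 0 := by
    intro h0
    rw [h0, map_zero, mul_zero, mul_zero] at hS'
    have : 0 < av v (w j0) ^ n * av v (Matrix.of fun j j' => δ (A j) j').det :=
      mul_pos (pow_pos hW n) ((av v).pos hdA)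
    linarith
  have hDw0 : Dw ≠ 0 := by
    rw [hDw']
    exact mul_ne_zero (Finset.prod_ne_zero_iff.mpr fun j _ => inv_ne_zero (hF _)) hdF0
  have hdK : (d : K) ≠ 0 := Nat.cast_ne_zero.mpr hd
  have hR0 := det_R0 i1 j0 w μ φ δ I hw hμ hF hdK hE
  rw [← hDw] at hR0
  have h12 : (1 + 2 / (d : K)) ≠ 0 := by
    intro h0
    rw [h0, map_zero, mul_zero] at h2
    linarith
  have hR0ne : (R0 i1 j0 (w j0) μ φ δ I).det ≠ 0 := by
    rw [hR0]
    exact mul_ne_zero (Finset.prod_ne_zero_iff.mpr fun y _ => inv_ne_zero (hμ y))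
      (mul_ne_zero h12 hDw0)
  -- lower bound for det R0
  have hDwlow : av v (Matrix.of fun j j' => δ (A j) j').det ≤
      κ ^ (n + 1) * M ^ (2 * n) * P ^ n * av v Dw := by
    have h3 : av v Dw = (∏ j, (av v (Fi μ φ (I j)))⁻¹) * av v dF := by
      rw [hDw', map_mul, map_prod]
      congr 1
      exact Finset.prod_congr rfl fun j _ => map_inv₀ _ _
    have h4 : (κ * (M * av v (w j0) * P))⁻¹ ^ n ≤ ∏ j, (av v (Fi μ φ (I j)))⁻¹ := by
      rw [hn, ← Finset.card_univ, ← Finset.prod_const]
      refine Finset.prod_le_prod (fun j _ => by positivity) fun j _ => ?_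
      exact inv_anti₀ (hFpos _) (hFle _)
    have h5 : (κ * (M * av v (w j0) * P))⁻¹ ^ n * av v dF ≤ av v Dw := by
      rw [h3]
      exact mul_le_mul_of_nonneg_right h4 ((av v).nonneg _)
    have h6 : 0 < (κ * (M * av v (w j0) * P)) ^ n := by positivity
    have h7 : av v dF ≤ (κ * (M * av v (w j0) * P)) ^ n * av v Dw := by
      rw [inv_pow] at h5
      rwa [inv_mul_le_iff₀ h6] at h5
    have h8 : av v (w j0) ^ n * av v (Matrix.of fun j j' => δ (A j) j').det ≤
        av v (w j0) ^ n * (κ ^ (n + 1) * M ^ (2 * n) * P ^ n * av v Dw) := by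
      refine hS'.trans ?_
      calc κ * (M ^ n * av v dF) ≤ κ * (M ^ n * ((κ * (M * av v (w j0) * P)) ^ n * av v Dw)) := by
            gcongr
        _ = _ := by
            rw [mul_pow, mul_pow, mul_pow]
            ring
    exact le_of_mul_le_mul_left h8 (pow_pos hW n)
  have hR0low : av v (Matrix.of fun j j' => δ (A j) j').det ≤
      κ ^ (n + 1) * M ^ (2 * n + 1) * (P ^ n * (∏ y, av v (μ y))) *
        av v (R0 i1 j0 (w j0) μ φ δ I).det := by
    have h3 : av v (R0 i1 j0 (w j0) μ φ δ I).det =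
        (∏ y, av v (μ y))⁻¹ * (av v (1 + 2 / (d : K)) * av v Dw) := by
      rw [hR0, map_mul, map_mul, map_prod, ← Finset.prod_inv_distrib]
      congr 1
      exact Finset.prod_congr rfl fun y _ => map_inv₀ _ _
    have h4 : av v Dw ≤ M * ((∏ y, av v (μ y)) * av v (R0 i1 j0 (w j0) μ φ δ I).det) := by
      rw [h3, mul_inv_cancel_left₀ hprod.ne', ← mul_assoc]
      exact le_mul_of_one_le_left ((av v).nonneg _) h2
    calc av v (Matrix.of fun j j' => δ (A j) j').det
        ≤ κ ^ (n + 1) * M ^ (2 * n) * P ^ n * av v Dw := hDwlow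
      _ ≤ κ ^ (n + 1) * M ^ (2 * n) * P ^ n *
          (M * ((∏ y, av v (μ y)) * av v (R0 i1 j0 (w j0) μ φ δ I).det)) := by gcongr
      _ = _ := by ring
  -- bound of the determinants by the minors of the rows
  have hcomb : ∀ (R : Matrix (ι ⊕ (τ × α)) (ι ⊕ (τ × α)) K),
      (∀ m, (∃ z, R m = ell i1 j0 (w j0) μ φ δ z) ∨
        ∃ z z', z ≠ z' ∧ R m = ell i1 j0 (w j0) μ φ δ z - ell i1 j0 (w j0) μ φ δ z') →
      av v R.det ≤ κ * V := by
    intro R hR
    have h3 : ∀ m, ∃ Θ : τ ⊕ (τ × α) → K, (∀ z, av v (Θ z) ≤ 1) ∧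
        ∀ j, R m j = ∑ z, Θ z * ell i1 j0 (w j0) μ φ δ z j := by
      intro m
      rcases hR m with ⟨z, hz⟩ | ⟨z, z', hzz, hz⟩
      · refine ⟨fun x => if x = z then 1 else 0, fun x => ?_, fun j => ?_⟩
        · beta_reduce
          split_ifs
          · rw [map_one]
          · rw [map_zero]
            exact zero_le_one
        · rw [hz]
          simp
      · refine ⟨fun x => if x = z then 1 else if x = z' then -1 else 0, fun x => ?_, fun j => ?_⟩
        · beta_reduce
          split_ifs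
          · rw [map_one]
          · rw [(av v).map_neg, map_one]
          · rw [map_zero]
            exact zero_le_one
        · rw [hz]
          have h4 : ∀ x, (if x = z then (1 : K) else if x = z' then -1 else 0) *
              ell i1 j0 (w j0) μ φ δ x j =
              (if x = z then ell i1 j0 (w j0) μ φ δ x j else 0) -
                (if x = z' then ell i1 j0 (w j0) μ φ δ x j else 0) := by
            intro x
            by_cases h5 : x = z
            · subst h5
              simp [hzz]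
            · by_cases h6 : x = z'
              · subst h6
                simp [h5]
              · simp [h5, h6]
          rw [Finset.sum_congr rfl fun x _ => h4 x, Finset.sum_sub_distrib]
          simp
    choose Θ hΘ1 hΘ2 using h3
    have h4 : R = Matrix.of fun m j => ∑ z, Θ m z * ell i1 j0 (w j0) μ φ δ z j := by
      ext m j
      exact hΘ2 m j
    have h5 := av_det_comb_le v Θ (ell i1 j0 (w j0) μ φ δ) (M := 1) zero_le_one hV0 hΘ1 hV
    rw [← h4, one_pow, one_mul] at h5
    exact h5.trans (mul_le_mul_of_nonneg_right hκ3 hV0)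
  have hR0rows : ∀ m, (∃ z, R0 i1 j0 (w j0) μ φ δ I m = ell i1 j0 (w j0) μ φ δ z) ∨
        ∃ z z', z ≠ z' ∧ R0 i1 j0 (w j0) μ φ δ I m =
          ell i1 j0 (w j0) μ φ δ z - ell i1 j0 (w j0) μ φ δ z' := by
    rintro (j | y)
    · exact Or.inl ⟨Sum.inl (I j), rfl⟩
    · exact Or.inr ⟨Sum.inr y, Sum.inl i1, by simp, rfl⟩
  by_cases hi : av v (w j0) * P ≤ κ * M * av v (Fi μ φ i)
  · have h3 := hcomb _ hR0rows
    calc av v (Matrix.of fun j j' => δ (A j) j').det * (av v (w j0) * P)
        ≤ (κ ^ (n + 1) * M ^ (2 * n + 1) * (P ^ n * (∏ y, av v (μ y))) *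
            av v (R0 i1 j0 (w j0) μ φ δ I).det) * (κ * M * av v (Fi μ φ i)) := by gcongr
      _ ≤ (κ ^ (n + 1) * M ^ (2 * n + 1) * (P ^ n * (∏ y, av v (μ y))) * (κ * V)) *
            (κ * M * av v (Fi μ φ i)) := by gcongr
      _ = _ := by ring
  · have hI' : ∀ j, I j ≠ i := by
      intro j h
      apply hi
      rw [← h]
      exact hTl (S j)
    have h3 := det_R1 i1 j0 (w j0) μ φ δ I hμ i a0 hI' hR0ne
    have h4 := hcomb ((R0 i1 j0 (w j0) μ φ δ I).updateRow (Sum.inr (i, a0))
      (ell i1 j0 (w j0) μ φ δ (Sum.inl i))) (by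
        intro m
        by_cases hm : m = Sum.inr (i, a0)
        · subst hm
          left
          exact ⟨Sum.inl i, by rw [Matrix.updateRow_self]⟩
        · rw [Matrix.updateRow_ne hm]
          exact hR0rows m)
    rw [h3, map_mul, map_div₀, map_mul, hμdef, map_mul, ha0] at h4
    rw [← hμdef] at h4
    have h5 : av v (w j0) * P * av v (R0 i1 j0 (w j0) μ φ δ I).det ≤
        M * (κ * V) * av v (Fi μ φ i) := by
      have h6 : av v (lam (i, a0)) * av v (w j0) * P / av v (Fi μ φ i) *
          av v (R0 i1 j0 (w j0) μ φ δ I).det * av v (Fi μ φ i) =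
          av v (lam (i, a0)) * (av v (w j0) * P * av v (R0 i1 j0 (w j0) μ φ δ I).det) := by
        have := (hFpos i).ne'
        field_simp
      have h7 : av v (lam (i, a0)) * (av v (w j0) * P * av v (R0 i1 j0 (w j0) μ φ δ I).det) ≤
          κ * V * av v (Fi μ φ i) := by
        rw [← h6]
        exact mul_le_mul_of_nonneg_right h4 (hFpos i).le
      have h8 : 0 ≤ av v (w j0) * P * av v (R0 i1 j0 (w j0) μ φ δ I).det := by positivity
      calc av v (w j0) * P * av v (R0 i1 j0 (w j0) μ φ δ I).det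
          ≤ (M * av v (lam (i, a0))) * (av v (w j0) * P * av v (R0 i1 j0 (w j0) μ φ δ I).det) :=
            le_mul_of_one_le_left h8 (hl' _)
        _ = M * (av v (lam (i, a0)) *
            (av v (w j0) * P * av v (R0 i1 j0 (w j0) μ φ δ I).det)) := by ring
        _ ≤ M * (κ * V * av v (Fi μ φ i)) := mul_le_mul_of_nonneg_left h7 hM0
        _ = _ := by ring
    calc av v (Matrix.of fun j j' => δ (A j) j').det * (av v (w j0) * P)
        ≤ (κ ^ (n + 1) * M ^ (2 * n + 1) * (P ^ n * (∏ y, av v (μ y))) *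
            av v (R0 i1 j0 (w j0) μ φ δ I).det) * (av v (w j0) * P) := by gcongr
      _ = κ ^ (n + 1) * M ^ (2 * n + 1) * (P ^ n * (∏ y, av v (μ y))) *
            (av v (w j0) * P * av v (R0 i1 j0 (w j0) μ φ δ I).det) := by ring
      _ ≤ κ ^ (n + 1) * M ^ (2 * n + 1) * (P ^ n * (∏ y, av v (μ y))) *
            (M * (κ * V) * av v (Fi μ φ i)) := by gcongr
      _ = (κ ^ (n + 2) * M ^ (2 * n + 2)) * (P ^ n * (∏ y, av v (μ y)) * V) *
            av v (Fi μ φ i) := by ring
      _ ≤ (κ ^ (n + 3) * M ^ (2 * n + 2)) * (P ^ n * (∏ y, av v (μ y)) * V) *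
            av v (Fi μ φ i) := by
          have h9 : κ ^ (n + 2) ≤ κ ^ (n + 3) := pow_le_pow_right₀ hκ (by omega)
          gcongr

end

end Pool.Agent.Lib.MP_17a322_nt.AB
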