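import Pool.Agent.Lib.MP_17a322_nt.AB.Defs
import Pool.Agent.Lib.MP_17a322_nt.AB.A3

/-!
The abc inequality in several variables: the universal combinations as forms.
-/

universe u

namespace Pool.Agent.Lib.MP_17a322_nt.AB

open MvPolynomial

section

variable {K : Type u} [Field K] {ι α τ : Type} [Fintype ι] [DecidableEq ι] [Fintype α]
  [DecidableEq α] [Fintype τ] [DecidableEq τ]

/-- The universal combination. -/
noncomputable def FF (Φ : α → MvPolynomial ι K) (i : τ) : MvPolynomial (ι ⊕ (τ × α)) K :=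
  ∑ a, X (Sum.inr (i, a)) * rename Sum.inl (Φ a)

/-- The forms `w_0 F_i` and `F_1 μ_{ia}`. -/
noncomputable def ff (i1 : τ) (j0 : ι) (Φ : α → MvPolynomial ι K) :
    τ ⊕ (τ × α) → MvPolynomial (ι ⊕ (τ × α)) K :=
  Sum.elim (fun i => X (Sum.inl j0) * FF Φ i) (fun y => FF Φ i1 * X (Sum.inr y))

omit [Fintype ι] [DecidableEq ι] [DecidableEq α] [Fintype τ] [DecidableEq τ] in
theorem FF_homog {Φ : α → MvPolynomial ι K} {d : ℕ} (hΦ : ∀ a, (Φ a).IsHomogeneous d) (i : τ) :
    (FF Φ i : MvPolynomial (ι ⊕ (τ × α)) K).IsHomogeneous (1 + d) :=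
  IsHomogeneous.sum _ _ _ fun a _ => (isHomogeneous_X _ _).mul ((hΦ a).rename_isHomogeneous)

omit [Fintype ι] [DecidableEq ι] [DecidableEq α] [Fintype τ] [DecidableEq τ] in
theorem ff_homog (i1 : τ) (j0 : ι) {Φ : α → MvPolynomial ι K} {d : ℕ}
    (hΦ : ∀ a, (Φ a).IsHomogeneous d) (m : τ ⊕ (τ × α)) :
    (ff i1 j0 Φ m).IsHomogeneous (d + 2) := by
  rcases m with i | y
  · have h := (isHomogeneous_X K (Sum.inl j0 : ι ⊕ (τ × α))).mul (FF_homog hΦ i)
    rw [show 1 + (1 + d) = d + 2 by ring] at h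
    exact h
  · have h := (FF_homog hΦ i1).mul (isHomogeneous_X K (Sum.inr y : ι ⊕ (τ × α)))
    rw [show 1 + d + 1 = d + 2 by ring] at h
    exact h

omit [Fintype ι] [DecidableEq ι] [DecidableEq α] [Fintype τ] [DecidableEq τ] in
theorem eval_FF (Φ : α → MvPolynomial ι K) (w : ι → K) (μ : τ × α → K) (i : τ) :
    eval (Sum.elim w μ) (FF Φ i) = Fi μ (fun a => eval w (Φ a)) i := by
  rw [FF, map_sum, Fi]
  refine Finset.sum_congr rfl fun a _ => ?_
  rw [map_mul, eval_X, eval_rename]
  rfl

omit [Fintype ι] [DecidableEq ι] [DecidableEq α] [Fintype τ] [DecidableEq τ] in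
theorem eval_pderiv_FF_inl (Φ : α → MvPolynomial ι K) (w : ι → K) (μ : τ × α → K) (i : τ)
    (j : ι) :
    eval (Sum.elim w μ) (pderiv (Sum.inl j) (FF Φ i)) =
      ∑ a, μ (i, a) * eval w (pderiv j (Φ a)) := by
  rw [FF, map_sum, map_sum]
  refine Finset.sum_congr rfl fun a _ => ?_
  rw [Derivation.leibniz, map_add, smul_eq_mul, smul_eq_mul, map_mul, map_mul,
    pderiv_X_of_ne (by simp), map_zero, mul_zero, add_zero, eval_X]
  rw [pderiv_rename Sum.inl_injective, eval_rename]
  rfl

omit [Fintype ι] [Fintype τ] in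
theorem eval_pderiv_FF_inr (Φ : α → MvPolynomial ι K) (w : ι → K) (μ : τ × α → K) (i : τ)
    (y : τ × α) :
    eval (Sum.elim w μ) (pderiv (Sum.inr y) (FF Φ i)) =
      if y.1 = i then eval w (Φ y.2) else 0 := by
  have h1 : ∀ a, eval (Sum.elim w μ) (pderiv (Sum.inr y)
      (X (Sum.inr (i, a)) * rename Sum.inl (Φ a) : MvPolynomial (ι ⊕ (τ × α)) K)) =
      if y = (i, a) then eval w (Φ a) else 0 := by
    intro a
    have h2 : pderiv (Sum.inr y) (rename Sum.inl (Φ a) : MvPolynomial (ι ⊕ (τ × α)) K) = 0 := by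
      apply pderiv_eq_zero_of_notMem_vars
      intro h
      have h3 := vars_rename (Sum.inl : ι → ι ⊕ (τ × α)) (Φ a) h
      simp at h3
    rw [Derivation.leibniz, h2, smul_zero, zero_add, smul_eq_mul, map_mul, eval_rename]
    by_cases h : y = (i, a)
    · subst h
      rw [pderiv_X_self, map_one, mul_one, if_pos rfl]
      rfl
    · rw [pderiv_X_of_ne (fun h' => h (Sum.inr.inj h').symm), map_zero, mul_zero, if_neg h]
  rw [FF, map_sum, map_sum, Finset.sum_congr rfl fun a _ => h1 a]
  by_cases h : y.1 = i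
  · rw [if_pos h]
    rw [Finset.sum_eq_single y.2]
    · rw [if_pos (by rw [← h])]
    · intro a _ ha
      rw [if_neg]
      intro h'
      exact ha (by rw [h'])
    · intro h'
      exact absurd (Finset.mem_univ _) h'
  · rw [if_neg h]
    refine Finset.sum_eq_zero fun a _ => ?_
    rw [if_neg]
    intro h'
    exact h (by rw [h'])

omit [Fintype ι] [DecidableEq ι] [DecidableEq α] [Fintype τ] [DecidableEq τ] in
theorem eval_ff_inl (i1 : τ) (j0 : ι) (Φ : α → MvPolynomial ι K) (w : ι → K) (μ : τ × α → K)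
    (i : τ) : eval (Sum.elim w μ) (ff i1 j0 Φ (Sum.inl i)) =
      w j0 * Fi μ (fun a => eval w (Φ a)) i := by
  change eval (Sum.elim w μ) (X (Sum.inl j0) * FF Φ i) = _
  rw [map_mul, eval_X, eval_FF]
  rfl

omit [Fintype ι] [DecidableEq ι] [DecidableEq α] [Fintype τ] [DecidableEq τ] in
theorem eval_ff_inr (i1 : τ) (j0 : ι) (Φ : α → MvPolynomial ι K) (w : ι → K) (μ : τ × α → K)
    (y : τ × α) : eval (Sum.elim w μ) (ff i1 j0 Φ (Sum.inr y)) =
      Fi μ (fun a => eval w (Φ a)) i1 * μ y := by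
  change eval (Sum.elim w μ) (FF Φ i1 * X (Sum.inr y)) = _
  rw [map_mul, eval_X, eval_FF]
  rfl

omit [Fintype ι] [Fintype τ] in
/-- The rows of the Jacobian matrix are the logarithmic differentials times the values. -/
theorem eval_pderiv_ff (i1 : τ) (j0 : ι) (Φ : α → MvPolynomial ι K) (w : ι → K) (μ : τ × α → K)
    (hw : w j0 ≠ 0) (hμ : ∀ y, μ y ≠ 0) (hF : ∀ i, Fi μ (fun a => eval w (Φ a)) i ≠ 0)
    (m : τ ⊕ (τ × α)) (x : ι ⊕ (τ × α)) :
    eval (Sum.elim w μ) (pderiv x (ff i1 j0 Φ m)) = eval (Sum.elim w μ) (ff i1 j0 Φ m) *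
      ell i1 j0 (w j0) μ (fun a => eval w (Φ a)) (fun a j => eval w (pderiv j (Φ a))) m x := by
  rcases m with i | y
  · rw [eval_ff_inl]
    have h1 : pderiv x (ff i1 j0 Φ (Sum.inl i)) = X (Sum.inl j0) * pderiv x (FF Φ i) +
        FF Φ i * pderiv x (X (Sum.inl j0)) := by
      change pderiv x (X (Sum.inl j0) * FF Φ i) = _
      rw [Derivation.leibniz, smul_eq_mul, smul_eq_mul]
    rw [h1, map_add, map_mul, map_mul, eval_X, eval_FF]
    rcases x with j | z
    · rw [eval_pderiv_FF_inl]
      have h2 : eval (Sum.elim w μ) (pderiv (Sum.inl j) (X (Sum.inl j0) :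
          MvPolynomial (ι ⊕ (τ × α)) K)) = if j = j0 then 1 else 0 := by
        by_cases h : j = j0
        · rw [h, pderiv_X_self, map_one, if_pos rfl]
        · rw [pderiv_X_of_ne (fun h' => h (Sum.inl.inj h').symm), map_zero, if_neg h]
      rw [h2]
      simp only [ell, Sum.elim_inl]
      have := hF i
      by_cases h : j = j0
      · simp only [h, if_true]
        field_simp
        ring
      · simp only [h, if_false]
        field_simp
        ring
    · rw [eval_pderiv_FF_inr, pderiv_X_of_ne (by simp), map_zero, mul_zero, add_zero]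
      simp only [ell, Sum.elim_inl, Sum.elim_inr]
      have := hF i
      by_cases h : z.1 = i
      · simp only [h, if_true]
        field_simp
      · simp only [h, if_false, mul_zero]
  · rw [eval_ff_inr]
    have h1 : pderiv x (ff i1 j0 Φ (Sum.inr y)) = FF Φ i1 * pderiv x (X (Sum.inr y)) +
        X (Sum.inr y) * pderiv x (FF Φ i1) := by
      change pderiv x (FF Φ i1 * X (Sum.inr y)) = _
      rw [Derivation.leibniz, smul_eq_mul, smul_eq_mul]
    rw [h1, map_add, map_mul, map_mul, eval_X, eval_FF]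
    have hF1 := hF i1
    have hy := hμ y
    rcases x with j | z
    · rw [eval_pderiv_FF_inl, pderiv_X_of_ne (by simp), map_zero, mul_zero, zero_add]
      simp only [ell, Sum.elim_inl, Sum.elim_inr]
      field_simp
    · rw [eval_pderiv_FF_inr]
      have h2 : eval (Sum.elim w μ) (pderiv (Sum.inr z) (X (Sum.inr y) :
          MvPolynomial (ι ⊕ (τ × α)) K)) = if z = y then 1 else 0 := by
        by_cases h : z = y
        · rw [h, pderiv_X_self, map_one, if_pos rfl]
        · rw [pderiv_X_of_ne (fun h' => h (Sum.inr.inj h').symm), map_zero, if_neg h]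
      rw [h2]
      simp only [ell, Sum.elim_inr]
      by_cases h : z = y
      · simp only [h, if_true]
        by_cases h' : y.1 = i1
        · simp only [h', if_true]
          field_simp
          ring
        · simp only [h', if_false]
          field_simp
          ring
      · simp only [h, if_false]
        by_cases h' : z.1 = i1
        · simp only [h', if_true]
          field_simp
          ring
        · simp only [h', if_false]
          ring

/-- The coordinates of the vector of the abc inequality. -/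
theorem entry_eq (i1 : τ) (j0 : ι) (Φ : α → MvPolynomial ι K) (w : ι → K) (μ : τ × α → K)
    (hw : w j0 ≠ 0) (hμ : ∀ y, μ y ≠ 0) (hF : ∀ i, Fi μ (fun a => eval w (Φ a)) i ≠ 0)
    (I : ι ⊕ (τ × α) → τ ⊕ (τ × α)) :
    (Matrix.of fun m x => eval (Sum.elim w μ) (pderiv x (ff i1 j0 Φ (I m)))).det *
        ∏ m ∈ (Finset.univ.image I)ᶜ, eval (Sum.elim w μ) (ff i1 j0 Φ m) =
      (∏ m, eval (Sum.elim w μ) (ff i1 j0 Φ m)) * (Matrix.of fun m x =>
        ell i1 j0 (w j0) μ (fun a => eval w (Φ a)) (fun a j => eval w (pderiv j (Φ a))) (I m) x).det := by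
  have h1 : (Matrix.of fun m x => eval (Sum.elim w μ) (pderiv x (ff i1 j0 Φ (I m)))).det =
      (∏ m, eval (Sum.elim w μ) (ff i1 j0 Φ (I m))) * (Matrix.of fun m x =>
        ell i1 j0 (w j0) μ (fun a => eval w (Φ a)) (fun a j => eval w (pderiv j (Φ a))) (I m) x).det := by
    rw [← Matrix.det_mul_column]
    congr 1
    ext m x
    simp only [Matrix.of_apply]
    exact eval_pderiv_ff i1 j0 Φ w μ hw hμ hF (I m) x
  by_cases hI : Function.Injective I
  · have h2 : ∏ m, eval (Sum.elim w μ) (ff i1 j0 Φ (I m)) =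
        ∏ m ∈ Finset.univ.image I, eval (Sum.elim w μ) (ff i1 j0 Φ m) := by
      rw [Finset.prod_image fun a _ b _ h => hI h]
    rw [h1, h2, mul_right_comm, Finset.prod_mul_prod_compl]
  · have h3 : (Matrix.of fun m x =>
        ell i1 j0 (w j0) μ (fun a => eval w (Φ a)) (fun a j => eval w (pderiv j (Φ a))) (I m) x).det = 0 := by
      rw [Function.Injective] at hI
      push Not at hI
      obtain ⟨a, b, hab, hne⟩ := hI
      exact Matrix.det_zero_of_row_eq hne (by ext x; simp only [Matrix.of_apply, hab])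
    rw [h1, h3, mul_zero, zero_mul, mul_zero]

end

end Pool.Agent.Lib.MP_17a322_nt.AB
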