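import Pool.Agent.Lib.MP_17a322_nt.EQ.Q2
import Pool.Agent.Lib.MP_17a322_nt.EQ.P1b
import Pool.Agent.Lib.MP_17a322_nt.AB.A4

/-!
The abc inequality in several variables: the sum of the inequalities at the places.
-/

set_option linter.unusedSectionVars false

universe u

namespace Pool.Agent.Lib.MP_17a322_nt.AB

open MvPolynomial Height NumberField
open Pool.Agent.Lib.MP_17a322_nt Pool.Agent.Lib.MP_17a322_nt.EQ

section

variable {K : Type u} [Field K] [NumberField K]

/-- The finite place `w` counts for the radical of the numbers `val m`. -/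
def Rd {σ : Type} (val : σ → K) (w : FinitePlace K) : Prop := ∃ m m', w (val m) ≠ w (val m')

open Classical in
/-- The terms of the radical of the numbers `val m`. -/
noncomputable def rdv {σ : Type} (val : σ → K) (v : Pl K) : ℝ :=
  match v with
  | Sum.inl _ => 0
  | Sum.inr w => if Rd val w then Real.log (qv w) else 0

theorem psum_rdv {σ : Type} (val : σ → K) : EQ.psum (rdv val) =
    ∑ᶠ v ∈ {v : FinitePlace K | ∃ m m', v (val m) ≠ v (val m')},
      Real.log (Ideal.absNorm v.maximalIdeal.asIdeal) := by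
  classical
  unfold EQ.psum
  rw [finsum_mem_def]
  simp only [rdv, mul_zero, Finset.sum_const_zero, zero_add]
  refine finsum_congr fun w => ?_
  by_cases h : Rd val w
  · have h' : w ∈ {v : FinitePlace K | ∃ m m', v (val m) ≠ v (val m')} := h
    rw [if_pos h, Set.indicator_of_mem h']
    rfl
  · have h' : w ∉ {v : FinitePlace K | ∃ m m', v (val m) ≠ v (val m')} := h
    rw [if_neg h, Set.indicator_of_notMem h']

theorem FS_rdv {σ : Type} [Finite σ] {val : σ → K} (h : ∀ m, val m ≠ 0) : FS (rdv val) := by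
  refine hs_fs_of (fun m v => Real.log (av v (val m))) (fun m => hl_fs_abs (h m)) _ fun w hw => ?_
  have h1 : ∀ m, w (val m) = 1 := by
    intro m
    have h2 : Real.log (w (val m)) = 0 := hw m
    have h3 : 0 < w (val m) := w.val.pos (h m)
    rcases Real.log_eq_zero.1 h2 with h4 | h4 | h4
    · rw [h4] at h3
      exact absurd h3 (lt_irrefl _)
    · exact h4
    · rw [h4] at h3
      linarith
  have h2 : ¬ Rd val w := by
    rintro ⟨m, m', hm⟩
    exact hm (by rw [h1, h1])
  simp only [rdv, if_neg h2]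

/-- Two different values at a finite place differ by the factor `q_v` at least. -/
theorem log_gap (w : FinitePlace K) {x y : K} (hx : x ≠ 0) (hy : y ≠ 0)
    (h : w.val x < w.val y) : Real.log (qv w) + Real.log (w.val x) ≤ Real.log (w.val y) := by
  obtain ⟨k, hk⟩ := hb_zpow w hx
  obtain ⟨l, hl⟩ := hb_zpow w hy
  have hq := one_lt_qv w
  have hlog : 0 < Real.log (qv w) := Real.log_pos hq
  rw [hk, hl] at h
  have h1 : k < l := (zpow_lt_zpow_iff_right₀ hq).1 h
  rw [hk, hl, Real.log_zpow, Real.log_zpow]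
  have h2 : (k : ℝ) + 1 ≤ l := by exact_mod_cast h1
  nlinarith

variable {ι α τ : Type} [Fintype ι] [DecidableEq ι] [Fintype α]
  [DecidableEq α] [Fintype τ] [DecidableEq τ]

/-- The numbers which control the constants. -/
noncomputable def cvec (lam : τ × α → K) (d : ℕ) :
    Option ((τ × α) ⊕ ((τ × α) ⊕ (((α → τ) × (α × α)) ⊕ Unit))) → K := fun x =>
  x.elim 1 (Sum.elim lam (Sum.elim (fun y => (lam y)⁻¹)
    (Sum.elim (fun z => ((Matrix.of fun b a => lam (z.1 b, a))⁻¹ : Matrix α α K) z.2.1 z.2.2)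
      (fun _ => (1 + 2 / (d : K))⁻¹))))

/-- The constant at the place `v`. -/
noncomputable def MM (lam : τ × α → K) (d : ℕ) (v : Pl K) : ℝ := ⨆ x, av v (cvec lam d x)

theorem le_MM (lam : τ × α → K) (d : ℕ) (v : Pl K)
    (x : Option ((τ × α) ⊕ ((τ × α) ⊕ (((α → τ) × (α × α)) ⊕ Unit)))) :
    av v (cvec lam d x) ≤ MM lam d v :=
  le_ciSup (f := fun x => av v (cvec lam d x)) (Set.finite_range _).bddAbove x

theorem one_le_MM (lam : τ × α → K) (d : ℕ) (v : Pl K) : 1 ≤ MM lam d v := by
  have h := le_MM lam d v none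
  simp only [cvec, Option.elim_none, map_one] at h
  exact h

theorem FS_MM (lam : τ × α → K) (d : ℕ) : FS fun v : Pl K => Real.log (MM lam d v) := by
  refine hl_fs_sup (x := cvec lam d) fun h => ?_
  have := congrFun h none
  simp [cvec] at this

/-- The constant in the triangle inequalities. -/
noncomputable def kap (ι α τ : Type) [Fintype ι] [DecidableEq ι] [Fintype α] [DecidableEq α]
    [Fintype τ] [DecidableEq τ] (v : Pl K) : ℝ :=
  kp v (Fintype.card α + Fintype.card (ι → α) + Fintype.card (ι ⊕ (τ × α) → τ ⊕ (τ × α)))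

open Classical in
/-- The possible contribution of the bad places to the radical. -/
noncomputable def bad (lam : τ × α → K) (d : ℕ) (v : Pl K) : ℝ :=
  match v with
  | Sum.inl _ => 0
  | Sum.inr w => if MM lam d (Sum.inr w) = 1 then 0 else Real.log (qv w)

/-- The error term at the place `v`. -/
noncomputable def EE (ι : Type) [Fintype ι] [DecidableEq ι] (lam : τ × α → K) (d : ℕ)
    (v : Pl K) : ℝ :=
  (Fintype.card ι + 4) * Real.log (kap ι α τ v) +
    (2 * Fintype.card ι + 3) * Real.log (MM lam d v) + bad lam d v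

theorem FS_EE (ι : Type) [Fintype ι] [DecidableEq ι] (lam : τ × α → K) (d : ℕ) :
    FS (EE ι lam d) := by
  refine hs_fs_of1 (FS_MM lam d) _ fun w hw => ?_
  have h1 : MM lam d (Sum.inr w) = 1 := by
    have h2 := one_le_MM lam d (Sum.inr w)
    rcases Real.log_eq_zero.1 hw with h4 | h4 | h4
    · linarith
    · exact h4
    · linarith
  simp only [EE, bad, h1, kap, kp, Real.log_one, mul_zero, if_true, add_zero]

theorem Fi_le (v : Pl K) (lam : τ × α → K) (c : K) (φ : α → K) {M : ℝ} (hM : 0 ≤ M)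
    (hl : ∀ y, av v (lam y) ≤ M) {P : ℝ} (hP0 : 0 ≤ P) (hP : ∀ a, av v (φ a) ≤ P) (i : τ) :
    av v (Fi (fun y => lam y * c) φ i) ≤ kp v (Fintype.card α) * (M * av v c * P) := by
  have hc : 0 ≤ av v c := (av v).nonneg _
  have h1 : av v (∑ a, (lam (i, a) * c) * φ a) ≤ kp v (Finset.univ : Finset α).card *
      (M * av v c * P) := by
    refine av_sum_le v _ _ (by positivity) fun a _ => ?_
    rw [map_mul, map_mul]
    exact mul_le_mul (mul_le_mul_of_nonneg_right (hl _) hc) (hP a) ((av v).nonneg _)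
      (by positivity)
  rw [Finset.card_univ] at h1
  exact h1

/-- The inequality at one place. -/
theorem place_ineq (v : Pl K) (i1 : τ) (j0 : ι) (lam : τ × α → K) {d : ℕ} (hd : d ≠ 0)
    (hl0 : ∀ y, lam y ≠ 0)
    (hT : ∀ T : α → τ, Function.Injective T → (Matrix.of fun b a => lam (T b, a)).det ≠ 0)
    (hcard : 2 * Fintype.card α ≤ Fintype.card τ)
    (w : ι → K) (φ : α → K) (δ : α → ι → K) (hw : w j0 ≠ 0)
    (hE : ∀ a, ∑ j, δ a j * w j = d * φ a)
    (hF : ∀ i, Fi (fun y => lam y * w j0) φ i ≠ 0)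
    (hJ : (fun A : ι → α => (Matrix.of fun j j' => δ (A j) j').det) ≠ 0) :
    0 < (⨆ I : ι ⊕ (τ × α) → τ ⊕ (τ × α), av v (Matrix.of fun m j =>
      ell i1 j0 (w j0) (fun y => lam y * w j0) φ δ (I m) j).det) ∧
    Real.log (⨆ A : ι → α, av v (Matrix.of fun j j' => δ (A j) j').det) +
      rdv (Sum.elim (fun i => w j0 * Fi (fun y => lam y * w j0) φ i)
        (fun y => Fi (fun y => lam y * w j0) φ i1 * (lam y * w j0))) v ≤
      Fintype.card ι * Real.log (⨆ a, av v (φ a)) + ∑ y, Real.log (av v (lam y * w j0)) +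
        Real.log (⨆ I : ι ⊕ (τ × α) → τ ⊕ (τ × α), av v (Matrix.of fun m j =>
          ell i1 j0 (w j0) (fun y => lam y * w j0) φ δ (I m) j).det) + EE ι lam d v := by
  classical
  set n := Fintype.card ι with hn
  set μ : τ × α → K := fun y => lam y * w j0 with hμ
  set V : ℝ := ⨆ I : ι ⊕ (τ × α) → τ ⊕ (τ × α), av v (Matrix.of fun m j =>
      ell i1 j0 (w j0) μ φ δ (I m) j).det with hVdef
  set P : ℝ := ⨆ a, av v (φ a) with hPdef
  set M : ℝ := MM lam d v with hMdef
  set κ : ℝ := kap ι α τ v with hκdef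
  have hM : 1 ≤ M := one_le_MM lam d v
  have hκ : 1 ≤ κ := one_le_kp v _
  have hφ : φ ≠ 0 := by
    intro h
    apply hF i1
    rw [h, Fi]
    simp
  obtain ⟨a0, ha0, hPa⟩ := hl_attained (av v) hφ
  have hPpos : 0 < P := hl_pos (av v) hφ
  have hP : ∀ a, av v (φ a) ≤ P := fun a =>
    le_ciSup (f := fun a => av v (φ a)) (Set.finite_range _).bddAbove a
  have hV : ∀ I : ι ⊕ (τ × α) → τ ⊕ (τ × α), av v (Matrix.of fun m j =>
      ell i1 j0 (w j0) μ φ δ (I m) j).det ≤ V := fun I =>
    le_ciSup (f := fun I : ι ⊕ (τ × α) → τ ⊕ (τ × α) => av v (Matrix.of fun m j =>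
      ell i1 j0 (w j0) μ φ δ (I m) j).det) (Set.finite_range _).bddAbove I
  have hl : ∀ y, av v (lam y) ≤ M := fun y => le_MM lam d v (some (Sum.inl y))
  have hl' : ∀ y, 1 ≤ M * av v (lam y) := by
    intro y
    have h1 := le_MM lam d v (some (Sum.inr (Sum.inl y)))
    have h2 : (av v (lam y))⁻¹ ≤ M := by
      rw [← map_inv₀]
      exact h1
    have h3 : 0 < av v (lam y) := (av v).pos (hl0 y)
    calc (1 : ℝ) = (av v (lam y))⁻¹ * av v (lam y) := (inv_mul_cancel₀ h3.ne').symm
      _ ≤ M * av v (lam y) := mul_le_mul_of_nonneg_right h2 h3.le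
  have hd0 : (d : K) ≠ 0 := Nat.cast_ne_zero.mpr hd
  have h12 : (1 + 2 / (d : K)) ≠ 0 := by
    intro h
    have h1 : (d : K) + 2 = 0 := by
      have h3 : (1 + 2 / (d : K)) * d = d + 2 := by
        field_simp
      rw [← h3, h, zero_mul]
    have h2 : ((d + 2 : ℕ) : K) = 0 := by
      push_cast
      exact h1
    exact absurd (Nat.cast_eq_zero.mp h2) (by omega)
  have h2 : 1 ≤ M * av v (1 + 2 / (d : K)) := by
    have h1 := le_MM lam d v (some (Sum.inr (Sum.inr (Sum.inr ()))))
    have h2 : (av v (1 + 2 / (d : K)))⁻¹ ≤ M := by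
      rw [← map_inv₀]
      exact h1
    have h3 : 0 < av v (1 + 2 / (d : K)) := (av v).pos h12
    calc (1 : ℝ) = (av v (1 + 2 / (d : K)))⁻¹ * av v (1 + 2 / (d : K)) :=
          (inv_mul_cancel₀ h3.ne').symm
      _ ≤ M * av v (1 + 2 / (d : K)) := mul_le_mul_of_nonneg_right h2 h3.le
  have hT' : ∀ T : α → τ, Function.Injective T → (Matrix.of fun b a => lam (T b, a)).det ≠ 0 ∧
      ∀ a b, av v (((Matrix.of fun b a => lam (T b, a))⁻¹ : Matrix α α K) a b) ≤ M := fun T hTi =>
    ⟨hT T hTi, fun a b => le_MM lam d v (some (Sum.inr (Sum.inr (Sum.inl (T, a, b)))))⟩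
  obtain ⟨A, hA, hAmax⟩ := hl_attained (av v) hJ
  have hκ1 : kp v (Fintype.card α) ≤ κ := kp_mono v (by omega)
  have hκ2 : kp v (Fintype.card (ι → α)) ≤ κ := kp_mono v (by omega)
  have hκ3 : kp v (Fintype.card (ι ⊕ (τ × α) → τ ⊕ (τ × α))) ≤ κ := kp_mono v (by omega)
  have key := fun i => local_bound v i1 j0 lam hd hM hl hl' hT' h2 hcard w φ δ hw hE hF hP
    ⟨a0, hPa.symm⟩ hV hκ1 hκ2 hκ3 A i
  have hW : 0 < av v (w j0) := (av v).pos hw
  have hJpos : 0 < av v (Matrix.of fun j j' => δ (A j) j').det := (av v).pos hA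
  have hFpos : ∀ i, 0 < av v (Fi μ φ i) := fun i => (av v).pos (hF i)
  have hμ0 : ∀ y, 0 < av v (μ y) := fun y => (av v).pos (mul_ne_zero (hl0 y) hw)
  have hprod : 0 < ∏ y, av v (μ y) := Finset.prod_pos fun y _ => hμ0 y
  have hVpos : 0 < V := by
    by_contra hV0
    push Not at hV0
    have h3 := key i1
    have h4 : 0 < av v (Matrix.of fun j j' => δ (A j) j').det * (av v (w j0) * P) := by positivity
    have h5 : (κ ^ (n + 3) * M ^ (2 * n + 2)) * (P ^ n * (∏ y, av v (μ y)) * V) *
          av v (Fi μ φ i1) ≤ 0 := by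
      have h6 : P ^ n * (∏ y, av v (μ y)) * V ≤ 0 :=
        mul_nonpos_of_nonneg_of_nonpos (by positivity) hV0
      have h7 : (κ ^ (n + 3) * M ^ (2 * n + 2)) * (P ^ n * (∏ y, av v (μ y)) * V) ≤ 0 :=
        mul_nonpos_of_nonneg_of_nonpos (by positivity) h6
      exact mul_nonpos_of_nonpos_of_nonneg h7 (hFpos i1).le
    linarith
  refine ⟨hVpos, ?_⟩
  have hlog : ∀ i, Real.log (av v (Matrix.of fun j j' => δ (A j) j').det) +
      (Real.log (av v (w j0)) + Real.log P) ≤ (n + 3) * Real.log κ + (2 * n + 2) * Real.log M +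
        (n * Real.log P + ∑ y, Real.log (av v (μ y)) + Real.log V) + Real.log (av v (Fi μ φ i)) := by
    intro i
    have h3 := Real.log_le_log (by positivity) (key i)
    rw [Real.log_mul hJpos.ne' (by positivity), Real.log_mul hW.ne' hPpos.ne',
      Real.log_mul (by positivity) (hFpos i).ne', Real.log_mul (by positivity) (by positivity),
      Real.log_mul (by positivity) (by positivity), Real.log_mul (by positivity) hVpos.ne',
      Real.log_mul (by positivity) hprod.ne', Real.log_pow, Real.log_pow, Real.log_pow,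
      Real.log_prod (fun y _ => (hμ0 y).ne')] at h3
    push_cast at h3
    exact h3
  have hFle : ∀ i, av v (Fi μ φ i) ≤ κ * (M * av v (w j0) * P) := fun i =>
    (Fi_le v lam (w j0) φ (by linarith) hl hPpos.le hP i).trans
      (mul_le_mul_of_nonneg_right hκ1 (by positivity))
  have hFlog : ∀ i, Real.log (av v (Fi μ φ i)) ≤
      Real.log κ + (Real.log M + Real.log (av v (w j0)) + Real.log P) := by
    intro i
    have h3 := Real.log_le_log (hFpos i) (hFle i)
    rw [Real.log_mul (by positivity) (by positivity), Real.log_mul (by positivity) hPpos.ne',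
      Real.log_mul (by positivity) hW.ne'] at h3
    exact h3
  rw [hAmax]
  -- reduce to the estimate of the radical term
  suffices h : ∃ i, rdv (Sum.elim (fun i => w j0 * Fi μ φ i) (fun y => Fi μ φ i1 * μ y)) v +
      Real.log (av v (Fi μ φ i)) ≤ Real.log (av v (w j0)) + Real.log P + Real.log κ +
        Real.log M + bad lam d v by
    obtain ⟨i, hi⟩ := h
    have h3 := hlog i
    have h4 : EE ι lam d v = (n + 4) * Real.log κ + (2 * n + 3) * Real.log M +
        bad lam d v := rfl
    rw [h4]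
    linarith
  rcases v with v | v
  · refine ⟨i1, ?_⟩
    have h3 := hFlog i1
    simp only [rdv, bad]
    linarith
  · by_cases hM1 : MM lam d (Sum.inr v) = 1
    · have hM1' : M = 1 := hM1
      have hκ' : κ = 1 := rfl
      simp only [bad, hM1, if_true, hM1', hκ', Real.log_one, add_zero]
      have hl1 : ∀ y, av (Sum.inr v) (lam y) = 1 := by
        intro y
        have h3 := hl y
        have h4 := hl' y
        rw [hM1'] at h3 h4
        linarith
      by_cases hR : Rd (Sum.elim (fun i => w j0 * Fi μ φ i) (fun y => Fi μ φ i1 * μ y)) v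
      · simp only [rdv, if_pos hR]
        have h3 : ∃ i, av (Sum.inr v) (Fi μ φ i) < av (Sum.inr v) (w j0) * P := by
          by_contra hcon
          push Not at hcon
          have h4 : ∀ i, av (Sum.inr v) (Fi μ φ i) = av (Sum.inr v) (w j0) * P := by
            intro i
            refine le_antisymm ?_ (hcon i)
            have h5 := hFle i
            rw [hκ', hM1', one_mul, one_mul] at h5
            exact h5
          have h6 : ∀ m, av (Sum.inr v) (Sum.elim (fun i => w j0 * Fi μ φ i)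
              (fun y => Fi μ φ i1 * μ y) m) =
              av (Sum.inr v) (w j0) * (av (Sum.inr v) (w j0) * P) := by
            rintro (i | y)
            · rw [Sum.elim_inl, map_mul, h4]
            · rw [Sum.elim_inr, map_mul, h4, hμ, map_mul, hl1, one_mul, mul_comm]
          obtain ⟨m, m', hm⟩ := hR
          exact hm ((h6 m).trans (h6 m').symm)
        obtain ⟨i, hi⟩ := h3
        refine ⟨i, ?_⟩
        have h4 : av (Sum.inr v) (w j0) * P = av (Sum.inr v) (w j0 * φ a0) := by
          rw [map_mul, hPdef, hPa]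
        rw [← Real.log_mul hW.ne' hPpos.ne', h4]
        rw [h4] at hi
        exact log_gap v (hF i) (mul_ne_zero hw ha0) hi
      · simp only [rdv, if_neg hR, zero_add]
        refine ⟨i1, ?_⟩
        have h3 := hFlog i1
        rw [hM1', hκ', Real.log_one] at h3
        linarith
    · refine ⟨i1, ?_⟩
      have h3 := hFlog i1
      have h4 : rdv (Sum.elim (fun i => w j0 * Fi μ φ i) (fun y => Fi μ φ i1 * μ y))
          (Sum.inr v) ≤ Real.log (qv v) := by
        simp only [rdv]
        split_ifs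
        · exact le_rfl
        · exact (Real.log_pos (one_lt_qv v)).le
      simp only [bad, hM1, if_false]
      linarith

/-- The inequality for the heights, for a fixed coefficient matrix. -/
theorem height_ineq (i1 : τ) (j0 : ι) (lam : τ × α → K) {d : ℕ} (hd : d ≠ 0)
    (hl0 : ∀ y, lam y ≠ 0)
    (hT : ∀ T : α → τ, Function.Injective T → (Matrix.of fun b a => lam (T b, a)).det ≠ 0)
    (hcard : 2 * Fintype.card α ≤ Fintype.card τ) (Φ : α → MvPolynomial ι K)
    (hΦ : ∀ a, (Φ a).IsHomogeneous d) (w : ι → K) (hw : w j0 ≠ 0)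
    (hF : ∀ i, Fi (fun y => lam y * w j0) (fun a => eval w (Φ a)) i ≠ 0)
    (hJ : (fun s : ι → α => (Matrix.of fun i j => eval w (pderiv j (Φ (s i)))).det) ≠ 0) :
    logHeight (fun s : ι → α => (Matrix.of fun i j => eval w (pderiv j (Φ (s i)))).det) +
      (∑ᶠ v ∈ {v : FinitePlace K | ∃ a b,
          v (eval (Sum.elim w (fun y => lam y * w j0)) (ff i1 j0 Φ a)) ≠
            v (eval (Sum.elim w (fun y => lam y * w j0)) (ff i1 j0 Φ b))},
        Real.log (Ideal.absNorm v.maximalIdeal.asIdeal)) ≤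
      Fintype.card ι * logHeight (fun a => eval w (Φ a)) +
        logHeight (fun s : ι ⊕ (τ × α) → τ ⊕ (τ × α) => (Matrix.of fun i j =>
          eval (Sum.elim w (fun y => lam y * w j0)) (pderiv j (ff i1 j0 Φ (s i)))).det *
            ∏ a ∈ (Finset.univ.image s)ᶜ,
              eval (Sum.elim w (fun y => lam y * w j0)) (ff i1 j0 Φ a)) +
        EQ.psum (EE ι lam d) := by
  classical
  set μ : τ × α → K := fun y => lam y * w j0 with hμ
  set φ : α → K := fun a => eval w (Φ a) with hφdef
  set δ : α → ι → K := fun a j => eval w (pderiv j (Φ a)) with hδdef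
  have hμ0 : ∀ y, μ y ≠ 0 := fun y => mul_ne_zero (hl0 y) hw
  have hE : ∀ a, ∑ j, δ a j * w j = d * φ a := by
    intro a
    have h1 := congrArg (eval w) (hΦ a).sum_X_mul_pderiv
    rw [map_sum] at h1
    rw [nsmul_eq_mul, map_mul, map_natCast] at h1
    rw [← h1]
    refine Finset.sum_congr rfl fun j _ => ?_
    rw [map_mul, eval_X, mul_comm]
  set val : τ ⊕ (τ × α) → K := Sum.elim (fun i => w j0 * Fi μ φ i)
    (fun y => Fi μ φ i1 * μ y) with hval
  have hvaleq : ∀ m, eval (Sum.elim w μ) (ff i1 j0 Φ m) = val m := by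
    rintro (i | y)
    · exact eval_ff_inl i1 j0 Φ w μ i
    · exact eval_ff_inr i1 j0 Φ w μ y
  have hval0 : ∀ m, val m ≠ 0 := by
    rintro (i | y)
    · exact mul_ne_zero hw (hF i)
    · exact mul_ne_zero (hF i1) (hμ0 y)
  set EL : (ι ⊕ (τ × α) → τ ⊕ (τ × α)) → K := fun I => (Matrix.of fun m j =>
      ell i1 j0 (w j0) μ φ δ (I m) j).det with hEL
  have hplace := fun v => place_ineq v i1 j0 lam hd hl0 hT hcard w φ δ hw hE hF hJ
  have hEL0 : EL ≠ 0 := by
    intro h
    have v0 : InfinitePlace K := Classical.arbitrary _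
    have h1 : 0 < ⨆ I, av (Sum.inl v0) (EL I) := (hplace (Sum.inl v0)).1
    rw [h] at h1
    simp at h1
  have hφ0 : φ ≠ 0 := by
    intro h
    apply hF i1
    rw [h, Fi]
    simp
  have hvec : (fun s : ι ⊕ (τ × α) → τ ⊕ (τ × α) => (Matrix.of fun i j =>
      eval (Sum.elim w μ) (pderiv j (ff i1 j0 Φ (s i)))).det *
        ∏ a ∈ (Finset.univ.image s)ᶜ, eval (Sum.elim w μ) (ff i1 j0 Φ a)) =
      (∏ m, val m) • EL := by
    funext s
    rw [entry_eq i1 j0 Φ w μ hw hμ0 hF s, Pi.smul_apply, smul_eq_mul]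
    congr 1
    exact Finset.prod_congr rfl fun m _ => hvaleq m
  have hrad : (∑ᶠ v ∈ {v : FinitePlace K | ∃ a b,
      v (eval (Sum.elim w μ) (ff i1 j0 Φ a)) ≠ v (eval (Sum.elim w μ) (ff i1 j0 Φ b))},
        Real.log (Ideal.absNorm v.maximalIdeal.asIdeal)) = EQ.psum (rdv val) := by
    rw [psum_rdv]
    simp only [hvaleq]
  rw [hvec, logHeight_smul_eq_logHeight _ (Finset.prod_ne_zero_iff.mpr fun m _ => hval0 m), hrad,
    ← hl_psum_sup hEL0, ← hl_psum_sup hφ0, ← hl_psum_sup hJ]
  have hprodf : EQ.psum (fun v : Pl K => ∑ y, Real.log (av v (μ y))) = 0 := by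
    rw [hs_sum Finset.univ (fun y v => Real.log (av v (μ y))) fun y _ => hl_fs_abs (hμ0 y)]
    exact Finset.sum_eq_zero fun y _ => psum_log_abv (hμ0 y)
  have f1 : FS fun v : Pl K => Real.log (⨆ A : ι → α, av v (Matrix.of fun j j' =>
      δ (A j) j').det) := hl_fs_sup hJ
  have f2 : FS (rdv val) := FS_rdv hval0
  have f3 : FS fun v : Pl K => (Fintype.card ι : ℝ) * Real.log (⨆ a, av v (φ a)) :=
    hs_fs_mul _ (hl_fs_sup hφ0)
  have f4 : FS fun v : Pl K => ∑ y, Real.log (av v (μ y)) :=
    hs_fs_sum _ _ fun y _ => hl_fs_abs (hμ0 y)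
  have f5 : FS fun v : Pl K => Real.log (⨆ I, av v (EL I)) := hl_fs_sup hEL0
  have f6 : FS (EE ι lam d) := FS_EE ι lam d
  have h1 := hs_mono (hs_fs_add f1 f2) (hs_fs_add (hs_fs_add (hs_fs_add f3 f4) f5) f6)
    fun v => (hplace v).2
  rw [hs_add f1 f2, hs_add (hs_fs_add (hs_fs_add f3 f4) f5) f6, hs_add (hs_fs_add f3 f4) f5,
    hs_add f3 f4, hprodf, add_zero, hs_mul] at h1
  exact h1

end

end Pool.Agent.Lib.MP_17a322_nt.AB
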