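import Pool.Agent.Lib.MP_17a322_nt.AB.A5

/-!
The abc inequality in several variables: a point outside finitely many hypersurfaces.
-/

set_option linter.unusedSectionVars false

universe u

namespace Pool.Agent.Lib.MP_17a322_nt.AB

open MvPolynomial

section

variable {K : Type u} [Field K] [Infinite K] {ι α τ : Type} [Fintype ι] [DecidableEq ι]
  [Fintype α] [DecidableEq α] [Fintype τ] [DecidableEq τ]

omit [Fintype ι] [DecidableEq ι] [Fintype α] [DecidableEq α] [Fintype τ] [DecidableEq τ] in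
/-- A nonzero polynomial over an infinite field has a nonzero value. -/
theorem exists_eval_ne {σ : Type} {P : MvPolynomial σ K} (hP : P ≠ 0) : ∃ x, eval x P ≠ 0 := by
  by_contra h
  push Not at h
  exact hP (MvPolynomial.funext fun x => by rw [h x, map_zero])

/-- The minor of the matrix of variables. -/
noncomputable def dT (T : α → τ) : MvPolynomial (ι ⊕ (τ × α)) K :=
  (Matrix.of fun b a => (X (Sum.inr (T b, a)) : MvPolynomial (ι ⊕ (τ × α)) K)).det

theorem eval_dT (T : α → τ) (w : ι → K) (μ : τ × α → K) :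
    eval (Sum.elim w μ) (dT T) = (Matrix.of fun b a => μ (T b, a)).det := by
  rw [dT, RingHom.map_det]
  congr 1
  ext b a
  simp

theorem dT_ne_zero {T : α → τ} (hT : Function.Injective T) :
    (dT T : MvPolynomial (ι ⊕ (τ × α)) K) ≠ 0 := by
  intro h
  have h1 := eval_dT (K := K) T (fun _ : ι => 0) (fun y => if y.1 = T y.2 then 1 else 0)
  rw [h, map_zero] at h1
  have h2 : (Matrix.of fun b a => (if T b = T a then 1 else 0 : K)) = (1 : Matrix α α K) := by
    ext b a
    simp [Matrix.one_apply, hT.eq_iff]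
  rw [h2, Matrix.det_one] at h1
  exact zero_ne_one h1

theorem FF_ne_zero {Φ : α → MvPolynomial ι K} (hΦ : ∃ a, Φ a ≠ 0) (i : τ) :
    (FF Φ i : MvPolynomial (ι ⊕ (τ × α)) K) ≠ 0 := by
  obtain ⟨a, ha⟩ := hΦ
  obtain ⟨w, hw⟩ := exists_eval_ne ha
  intro h
  have h1 := eval_FF Φ w (fun y => if y = (i, a) then 1 else 0) i
  rw [h, map_zero, Fi] at h1
  simp only [Prod.mk.injEq, true_and, ite_mul, one_mul, zero_mul, Finset.sum_ite_eq',
    Finset.mem_univ, if_true] at h1
  exact hw h1.symm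

/-- A point outside finitely many hypersurfaces. -/
theorem exists_point {G : MvPolynomial (ι ⊕ (τ × α)) K} (hG : G ≠ 0)
    {Φ : α → MvPolynomial ι K} (hΦ : ∃ a, Φ a ≠ 0) (j0 : ι) :
    ∃ (w : ι → K) (μ : τ × α → K), eval (Sum.elim w μ) G ≠ 0 ∧ w j0 ≠ 0 ∧ (∀ y, μ y ≠ 0) ∧
      (∀ T : α → τ, Function.Injective T → (Matrix.of fun b a => μ (T b, a)).det ≠ 0) ∧
      ∀ i, Fi μ (fun a => eval w (Φ a)) i ≠ 0 := by
  classical
  set P : MvPolynomial (ι ⊕ (τ × α)) K := G * (X (Sum.inl j0) * ((∏ y : τ × α, X (Sum.inr y)) *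
    ((∏ T ∈ Finset.univ.filter fun T : α → τ => Function.Injective T, dT T) *
      ∏ i : τ, FF Φ i))) with hP
  have hP0 : P ≠ 0 := by
    refine mul_ne_zero hG (mul_ne_zero (X_ne_zero _) (mul_ne_zero
      (Finset.prod_ne_zero_iff.mpr fun y _ => X_ne_zero _) (mul_ne_zero
      (Finset.prod_ne_zero_iff.mpr fun T hT => dT_ne_zero (Finset.mem_filter.mp hT).2)
      (Finset.prod_ne_zero_iff.mpr fun i _ => FF_ne_zero hΦ i))))
  obtain ⟨z, hz⟩ := exists_eval_ne hP0
  have hz' : z = Sum.elim (fun i => z (Sum.inl i)) (fun y => z (Sum.inr y)) := by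
    funext x
    rcases x with i | y
    · rfl
    · rfl
  rw [hP, map_mul, map_mul, map_mul, map_mul, map_prod, map_prod, map_prod] at hz
  refine ⟨fun i => z (Sum.inl i), fun y => z (Sum.inr y), ?_, ?_, ?_, ?_, ?_⟩
  · rw [← hz']
    exact left_ne_zero_of_mul hz
  · have h := left_ne_zero_of_mul (right_ne_zero_of_mul hz)
    rwa [eval_X] at h
  · intro y
    have h := left_ne_zero_of_mul (right_ne_zero_of_mul (right_ne_zero_of_mul hz))
    have h2 := Finset.prod_ne_zero_iff.mp h y (Finset.mem_univ _)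
    rwa [eval_X] at h2
  · intro T hT
    have h := left_ne_zero_of_mul (right_ne_zero_of_mul (right_ne_zero_of_mul
      (right_ne_zero_of_mul hz)))
    have h2 := Finset.prod_ne_zero_iff.mp h T (Finset.mem_filter.mpr ⟨Finset.mem_univ _, hT⟩)
    rw [hz', eval_dT] at h2
    exact h2
  · intro i
    have h := right_ne_zero_of_mul (right_ne_zero_of_mul (right_ne_zero_of_mul
      (right_ne_zero_of_mul hz)))
    have h2 := Finset.prod_ne_zero_iff.mp h i (Finset.mem_univ _)
    rw [hz', eval_FF] at h2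
    exact h2

end

end Pool.Agent.Lib.MP_17a322_nt.AB
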