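import Pool.Agent.Lib.MP_17a322_nt.AB.A6
import Pool.Agent.Lib.MP_17a322_nt.JAC.Defs

/-!
The abc inequality for forms implies the inequality for the Jacobian minors.
-/

universe u

namespace Pool.Agent.Lib.MP_17a322_nt.AB

open MvPolynomial Height NumberField
open Pool.Agent.Lib.MP_17a322_nt Pool.Agent.Lib.MP_17a322_nt.EQ
open Pool.Agent.Lib.MP_17a322_nt.JAC (JacIneq)

section

variable {K : Type u} [Field K] [NumberField K] {ι α τ : Type} [Fintype ι] [DecidableEq ι]
  [Fintype α] [DecidableEq α] [Fintype τ] [DecidableEq τ]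

omit [DecidableEq ι] in
/-- The height of the point with the new coordinates `λ_y w_0`. -/
theorem height_ext (j0 : ι) (lam : τ × α → K) (d : ℕ) {w : ι → K} (hw : w ≠ 0) :
    logHeight (Sum.elim w fun y => lam y * w j0) ≤
      logHeight w + EQ.psum (fun v => Real.log (MM lam d v)) := by
  have hz : (Sum.elim w fun y => lam y * w j0) ≠ 0 := by
    intro h
    apply hw
    funext i
    exact congrFun h (Sum.inl i)
  rw [← hl_psum_sup hz, ← hl_psum_sup hw, ← hs_add (hl_fs_sup hw) (FS_MM lam d)]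
  refine hs_mono (hl_fs_sup hz) (hs_fs_add (hl_fs_sup hw) (FS_MM lam d)) fun v => ?_
  have h1 : 0 < ⨆ i, av v (w i) := hl_pos (av v) hw
  have h2 : 1 ≤ MM lam d v := one_le_MM lam d v
  have h3 : ∀ i, av v (w i) ≤ ⨆ i, av v (w i) := fun i =>
    le_ciSup (f := fun i => av v (w i)) (Set.finite_range _).bddAbove i
  rw [← Real.log_mul h1.ne' (by positivity)]
  refine Real.log_le_log (hl_pos (av v) hz) ?_
  have hne : Nonempty (ι ⊕ (τ × α)) := ⟨Sum.inl j0⟩
  refine ciSup_le fun x => ?_
  rcases x with i | y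
  · rw [Sum.elim_inl]
    exact (h3 i).trans (le_mul_of_one_le_right h1.le h2)
  · rw [Sum.elim_inr, map_mul, mul_comm]
    exact mul_le_mul (h3 j0) (le_MM lam d v (some (Sum.inl y))) ((av v).nonneg _) h1.le

end

/-- The abc inequality for forms in several variables implies the inequality for the Jacobian
minors of rational maps. -/
theorem jac_of_abc {K : Type u} [Field K] [NumberField K] (hABC : ABCIneq K) : JacIneq K := by
  intro ι α _ _ _ Φ d hΦ ε hε
  classical
  rcases isEmpty_or_nonempty ι with hι | ⟨⟨j0⟩⟩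
  · refine ⟨1, logHeight (fun s : ι → α => (Matrix.of fun i j =>
      eval (fun _ => 0) (pderiv j (Φ (s i)))).det), one_ne_zero, ⟨0, isHomogeneous_one _ _⟩, ?_⟩
    intro w _
    have hw : w = fun _ => 0 := Subsingleton.elim _ _
    have h1 : 0 ≤ (Fintype.card ι : ℝ) * logHeight (fun a => eval w (Φ a)) :=
      mul_nonneg (Nat.cast_nonneg _) (logHeight_nonneg _)
    have h2 : 0 ≤ ε * logHeight w := mul_nonneg hε.le (logHeight_nonneg _)
    rw [← hw]
    linarith
  -- the trivial case
  have triv : (∀ w : ι → K, (fun s : ι → α => (Matrix.of fun i j =>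
      eval w (pderiv j (Φ (s i)))).det) = 0) → ∃ (G : MvPolynomial ι K) (C : ℝ), G ≠ 0 ∧
      (∃ d', G.IsHomogeneous d') ∧ ∀ w : ι → K, eval w G ≠ 0 →
        logHeight (fun s : ι → α => (Matrix.of fun i j => eval w (pderiv j (Φ (s i)))).det) ≤
          Fintype.card ι * logHeight (fun a => eval w (Φ a)) + ε * logHeight w + C := by
    intro h
    refine ⟨1, 0, one_ne_zero, ⟨0, isHomogeneous_one _ _⟩, fun w _ => ?_⟩
    rw [h w, logHeight_zero, add_zero]
    exact add_nonneg (mul_nonneg (Nat.cast_nonneg _) (logHeight_nonneg _))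
      (mul_nonneg hε.le (logHeight_nonneg _))
  by_cases hpd : ∀ a j, pderiv j (Φ a) = 0
  · refine triv fun w => funext fun s => ?_
    have h1 : (Matrix.of fun i j => eval w (pderiv j (Φ (s i)))) = 0 := by
      ext i j
      simp [hpd]
    have hne : Nonempty ι := ⟨j0⟩
    rw [h1, Matrix.det_zero]
    rfl
  push Not at hpd
  obtain ⟨a1, j1, ha1⟩ := hpd
  have hd : d ≠ 0 := by
    rintro rfl
    apply ha1
    have h2 : (Φ a1).totalDegree = 0 :=
      (totalDegree_zero_iff_isHomogeneous (p := Φ a1)).mpr (hΦ a1)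
    rw [totalDegree_eq_zero_iff_eq_C.mp h2, pderiv_C]
  have hΦ0 : ∃ a, Φ a ≠ 0 := by
    refine ⟨a1, fun h => ha1 ?_⟩
    rw [h, map_zero]
  have hcard : 0 < Fintype.card α := Fintype.card_pos_iff.mpr ⟨a1⟩
  set i1 : Fin (2 * Fintype.card α) := ⟨0, by omega⟩ with hi1
  obtain ⟨G1, C1, hG1, ⟨d1, hG1h⟩, h1⟩ := hABC (ι ⊕ (Fin (2 * Fintype.card α) × α))
    (Fin (2 * Fintype.card α) ⊕ (Fin (2 * Fintype.card α) × α)) (ff i1 j0 Φ) (d + 2)
    (ff_homog i1 j0 hΦ) ε hε
  obtain ⟨w0, μ0, hw1, hw2, hw3, hw4, hw5⟩ := exists_point hG1 hΦ0 j0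
  set lam : Fin (2 * Fintype.card α) × α → K := fun y => μ0 y / w0 j0 with hlam
  have hlam0 : (fun y => lam y * w0 j0) = μ0 := by
    funext y
    rw [hlam]
    exact div_mul_cancel₀ _ hw2
  have hl0 : ∀ y, lam y ≠ 0 := fun y => div_ne_zero (hw3 y) hw2
  have hT : ∀ T : α → Fin (2 * Fintype.card α), Function.Injective T →
      (Matrix.of fun b a => lam (T b, a)).det ≠ 0 := by
    intro T hT h
    apply hw4 T hT
    have h2 : (Matrix.of fun b a => μ0 (T b, a)) = w0 j0 • (Matrix.of fun b a => lam (T b, a)) := by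
      ext b a
      rw [Matrix.smul_apply, Matrix.of_apply, Matrix.of_apply, smul_eq_mul, mul_comm (w0 j0)]
      exact (congrFun hlam0 (T b, a)).symm
    rw [h2, Matrix.det_smul, h, mul_zero]
  -- the exceptional form
  set G2 : MvPolynomial ι K := aeval (Sum.elim X fun y => C (lam y) * X j0) G1 with hG2
  have hG2e : ∀ w : ι → K, eval w G2 = eval (Sum.elim w fun y => lam y * w j0) G1 := by
    intro w
    have h2 : (eval w).comp (aeval (Sum.elim X fun y => C (lam y) * X j0) :
        MvPolynomial (ι ⊕ (Fin (2 * Fintype.card α) × α)) K →ₐ[K] MvPolynomial ι K).toRingHom =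
        eval (Sum.elim w fun y => lam y * w j0) := by
      refine MvPolynomial.ringHom_ext (fun c => ?_) fun x => ?_
      · simp
      · rcases x with i | y
        · simp
        · simp
    exact congrArg (fun g => g G1) h2
  have hG20 : G2 ≠ 0 := by
    intro h
    apply hw1
    rw [← hlam0, ← hG2e, h, map_zero]
  have hG2h : G2.IsHomogeneous d1 := by
    have h2 := hG1h.aeval (Sum.elim X fun y => C (lam y) * X j0 :
        ι ⊕ (Fin (2 * Fintype.card α) × α) → MvPolynomial ι K) (n := 1) (by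
      rintro (i | y)
      · exact isHomogeneous_X K i
      · have h3 := (isHomogeneous_C ι (lam y)).mul (isHomogeneous_X K j0)
        rwa [zero_add] at h3)
    rwa [one_mul] at h2
  set G3 : Fin (2 * Fintype.card α) → MvPolynomial ι K := fun i =>
    ∑ a, C (lam (i, a)) * X j0 * Φ a with hG3
  have hG3e : ∀ (w : ι → K) (i : Fin (2 * Fintype.card α)), eval w (G3 i) =
      Fi (fun y => lam y * w j0) (fun a => eval w (Φ a)) i := by
    intro w i
    rw [hG3, Fi, map_sum]
    exact Finset.sum_congr rfl fun a _ => by rw [map_mul, map_mul, eval_C, eval_X]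
  have hG30 : ∀ i, G3 i ≠ 0 := by
    intro i h
    apply hw5 i
    rw [← hlam0, ← hG3e, h, map_zero]
  have hG3h : ∀ i, (G3 i).IsHomogeneous (1 + d) := by
    intro i
    refine IsHomogeneous.sum _ _ _ fun a _ => ?_
    have h3 := ((isHomogeneous_C ι (lam (i, a))).mul (isHomogeneous_X K j0)).mul (hΦ a)
    rwa [zero_add] at h3
  refine ⟨X j0 * (G2 * ∏ i, G3 i),
    max 0 (ε * EQ.psum (fun v => Real.log (MM lam d v)) + C1 + EQ.psum (EE ι lam d)),
    mul_ne_zero (X_ne_zero _) (mul_ne_zero hG20 (Finset.prod_ne_zero_iff.mpr fun i _ => hG30 i)),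
    ⟨_, (isHomogeneous_X K j0).mul (hG2h.mul (IsHomogeneous.prod _ _ _ fun i _ => hG3h i))⟩, ?_⟩
  intro w hw
  rw [map_mul, map_mul, map_prod, eval_X] at hw
  have hwj : w j0 ≠ 0 := left_ne_zero_of_mul hw
  have hw2' : eval (Sum.elim w fun y => lam y * w j0) G1 ≠ 0 := by
    rw [← hG2e]
    exact left_ne_zero_of_mul (right_ne_zero_of_mul hw)
  have hw3' : ∀ i, Fi (fun y => lam y * w j0) (fun a => eval w (Φ a)) i ≠ 0 := by
    intro i
    rw [← hG3e]
    exact Finset.prod_ne_zero_iff.mp (right_ne_zero_of_mul (right_ne_zero_of_mul hw)) i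
      (Finset.mem_univ _)
  have hw0 : w ≠ 0 := fun h => hwj (by rw [h]; rfl)
  by_cases hJ : (fun s : ι → α => (Matrix.of fun i j => eval w (pderiv j (Φ (s i)))).det) = 0
  · rw [hJ, logHeight_zero]
    have h3 : 0 ≤ (Fintype.card ι : ℝ) * logHeight (fun a => eval w (Φ a)) :=
      mul_nonneg (Nat.cast_nonneg _) (logHeight_nonneg _)
    have h4 : 0 ≤ ε * logHeight w := mul_nonneg hε.le (logHeight_nonneg _)
    have h5 := le_max_left 0
      (ε * EQ.psum (fun v => Real.log (MM lam d v)) + C1 + EQ.psum (EE ι lam d))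
    linarith
  · have h3 := height_ineq i1 j0 lam hd hl0 hT (by rw [Fintype.card_fin]) Φ hΦ w hwj hw3' hJ
    have h4 := h1 _ hw2'
    have h5 := mul_le_mul_of_nonneg_left (height_ext j0 lam d hw0) hε.le
    have h6 := le_max_right 0
      (ε * EQ.psum (fun v => Real.log (MM lam d v)) + C1 + EQ.psum (EE ι lam d))
    linarith

end Pool.Agent.Lib.MP_17a322_nt.AB
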