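import Mathlib

/-!
The abc inequality for forms in several variables: definition. Heights are not divided by `[K : ℚ]`.
-/

universe u

namespace Pool.Agent.Lib.MP_17a322_nt.AB

open MvPolynomial Height NumberField

/-- The abc inequality for forms in several variables over the number field `K`. For forms `f_a`,
`a ∈ κ`, of the same degree in the variables `X_j`, `j ∈ τ`, and `ε > 0`, outside a hypersurface
`G = 0` the height of the vector with the coordinates
`det (∂ f_a / ∂ X_j (w))_{a ∈ s, j ∈ τ} * ∏_{a ∉ s} f_a(w)`, where `s` runs over the subsets of `κ`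
with as many elements as `τ` (in the definition `s` is a map from `τ` to `κ`; if it is not injective
the coordinate is zero), is at most the sum of `log q_v` over the finite places `v` at which the
absolute values of the numbers `f_a(w)` are not all equal, plus `ε h(w) + O(1)`. For the three forms
`X`, `Y`, `X + Y` this is the abc conjecture over `K`. -/
def ABCIneq (K : Type u) [Field K] [NumberField K] : Prop :=
  ∀ (τ κ : Type) [Fintype τ] [DecidableEq τ] [Fintype κ] [DecidableEq κ]
    (f : κ → MvPolynomial τ K) (d : ℕ), (∀ a, (f a).IsHomogeneous d) → ∀ ε : ℝ, 0 < ε →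
    ∃ (G : MvPolynomial τ K) (C : ℝ), G ≠ 0 ∧ (∃ d', G.IsHomogeneous d') ∧
      ∀ w : τ → K, eval w G ≠ 0 →
        logHeight (fun s : τ → κ => (Matrix.of fun i j => eval w (pderiv j (f (s i)))).det *
            ∏ a ∈ (Finset.univ.image s)ᶜ, eval w (f a)) ≤
          (∑ᶠ v ∈ {v : FinitePlace K | ∃ a b, v (eval w (f a)) ≠ v (eval w (f b))},
            Real.log (Ideal.absNorm v.maximalIdeal.asIdeal)) + ε * logHeight w + C

end Pool.Agent.Lib.MP_17a322_nt.AB
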